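import Pool.Agent.Lib.GJ.D10

/-! A reverse Russo inequality for random-cluster measures with `1 ≤ q ≤ 2`. -/

set_option linter.unusedSectionVars false

namespace Pool.Agent.Lib.GJ.H10
open Finset

variable {ι V K : Type} [DecidableEq ι] [Field K] [LinearOrder K] [IsStrictOrderedRing K]
variable {s t : ι → V} {c : Finset ι → V → V → Prop} {r : Finset ι → ℕ} {q v : K}

lemma cost_insert {E : Finset ι} {e : ι} (he : e ∉ E) (B : Finset ι) (n f : Finset ι → K) :
    cost q v r (insert e E) B n f = v * S q v r E B (fun Y => n Y * (f (insert e Y) - f Y)) +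
      (cost q v r E B n f + v * cost q v r E (insert e B) n f) := by
  rw [cost, sum_insert he, erase_insert he, cost, cost, mul_sum, ← sum_add_distrib]
  congr 1
  refine sum_congr rfl fun g hg => ?_
  rw [erase_insert_of_ne (fun h : e = g => he (h ▸ hg)),
    S_insert fun h => he (mem_of_mem_erase h)]
  ring

lemma cost_base (h : Cn s t c r) (E B : Finset ι) (e : ι) (n f : Finset ι → K) :
    cost q v r E (insert e B) n f = cost q v r E B
      (fun Y => ρ q (c Y (s e) (t e)) * n (insert e Y)) fun Y => f (insert e Y) :=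
  sum_congr rfl fun g _ => by
    rw [S_base h]
    congr 1
    exact S_congr fun X _ => by simp only [Finset.insert_comm g e]; ring

lemma cost_congr {E B : Finset ι} {n n' : Finset ι → K} (f : Finset ι → K)
    (H : ∀ X ⊆ E, n (B ∪ X) = n' (B ∪ X)) : cost q v r E B n f = cost q v r E B n' f :=
  sum_congr rfl fun g _ => by
    congr 1
    exact S_congr fun X hX => by rw [H X (hX.trans (erase_subset _ _))]

lemma cost_add (E B : Finset ι) (n n' f : Finset ι → K) :
    cost q v r E B (fun Y => n Y + n' Y) f = cost q v r E B n f + cost q v r E B n' f := by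
  simp only [cost, add_mul, S_add, mul_add, sum_add_distrib]

lemma cost_mul (E B : Finset ι) (a : K) (n f : Finset ι → K) :
    cost q v r E B (fun Y => a * n Y) f = a * cost q v r E B n f := by
  simp only [cost, mul_assoc, S_mul, mul_sum]
  exact sum_congr rfl fun _ _ => by ring

lemma cost_nonneg (hq : 0 < q) (hv : 0 ≤ v) (E B : Finset ι) {n f : Finset ι → K}
    (hn : ∀ Y, 0 ≤ n Y) (hf : Monotone f) : 0 ≤ cost q v r E B n f :=
  sum_nonneg fun _ _ => mul_nonneg hv (S_nonneg hq hv fun _ _ =>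
    mul_nonneg (hn _) (sub_nonneg.2 (hf (subset_insert _ _))))

lemma N_nonneg (Vs : Finset V) (z : V) (Y : Finset ι) : (0 : K) ≤ N c Vs z Y :=
  sum_nonneg fun _ _ => ind_nonneg _

lemma φ_nonneg (hq : 0 < q) (hv : 0 ≤ v) (E B : Finset ι) {g : Finset ι → K}
    (H : ∀ Y, 0 ≤ g Y) : 0 ≤ φ q v r E B g :=
  div_nonneg (S_nonneg hq hv fun _ _ => H _) (Z_pos hq hv _ _).le

lemma S_center (hq : 0 < q) (hv : 0 ≤ v) (E B : Finset ι) (f : Finset ι → K) :
    S q v r E B (fun Y => f Y - φ q v r E B f) = 0 := by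
  rw [S_sub, S_const, φ_mul_Z hq hv, sub_self]

/-- pinned edges inside a set that no other edge leaves do not matter outside -/
lemma φ_loc (h : Cn s t c r) (hq : 1 ≤ q) (P : V → Prop) {E B : Finset ι}
    (hE : ∀ g ∈ E, ¬ P (s g) ∧ ¬ P (t g)) (hB : ∀ g ∈ B, P (s g) ↔ P (t g)) {a : V} (ha : ¬ P a)
    (b : V) (C : Finset ι) : (∀ g ∈ C, P (s g) ∧ P (t g)) →
      φ q v r E (B ∪ C) (fun Y => ind (c Y a b)) = φ q v r E B fun Y => ind (c Y a b) := by
  induction C using Finset.induction_on with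
  | empty => intro _; rw [union_empty]
  | insert e C _ ih =>
    intro hC
    have he := hC e (mem_insert_self _ _)
    have hC' := fun g hg => hC g (mem_insert_of_mem hg)
    have h1 : ∀ g ∈ B ∪ C, P (s g) ↔ P (t g) := fun g hg =>
      (mem_union.1 hg).elim (hB g) fun hg => iff_of_true (hC' g hg).1 (hC' g hg).2
    have h2 : ∀ X ⊆ E, c (B ∪ C ∪ X) (s e) (t e) = c (B ∪ C) (s e) (t e) := fun X hX =>
      propext (h.far P h1 X (fun g hg => hE g (hX hg)) _ _ he.1)
    have h3 : ∀ X ⊆ E, c (insert e (B ∪ C ∪ X)) a b = c (B ∪ C ∪ X) a b := fun X hX => by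
      rw [insert_eq, union_comm]
      refine propext (h.far (fun x => ¬ P x) (fun g hg => ?_) {e} (by simpa using he) _ _ ha)
      exact (mem_union.1 hg).elim (fun hg => not_congr (h1 g hg))
        fun hg => iff_of_true (hE g (hX hg)).1 (hE g (hX hg)).2
    rw [← ih hC', union_insert, φ, S_base h, S_base h,
      S_congr (g' := fun Y => ρ q (c (B ∪ C) (s e) (t e)) * ind (c Y a b))
        fun X hX => by simp only [h2 X hX, h3 X hX],
      S_congr (g := fun Y => ρ q (c Y (s e) (t e)) * 1)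
        (g' := fun _ => ρ q (c (B ∪ C) (s e) (t e)) * 1) fun X hX => by simp only [h2 X hX],
      S_mul, S_mul, mul_div_mul_left _ _ (ρ_pos hq _).ne', φ]

open Classical in
/-- the edges that do not touch the cluster of `z` -/
noncomputable def out (s t : ι → V) (c : Finset ι → V → V → Prop) (z : V) (Y E : Finset ι) :
    Finset ι := E.filter fun g => ¬ c Y z (s g) ∧ ¬ c Y z (t g)

lemma mem_out {z : V} {Y E : Finset ι} {g : ι} :
    g ∈ out s t c z Y E ↔ g ∈ E ∧ ¬ c Y z (s g) ∧ ¬ c Y z (t g) := by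
  simp only [out, mem_filter]

lemma out_insert {z : V} {Y : Finset ι} {e : ι} (he : c Y z (s e) ∨ c Y z (t e)) (E : Finset ι) :
    out s t c z Y (insert e E) = out s t c z Y E := by
  ext g
  simp only [mem_out, mem_insert]
  refine ⟨?_, fun h => ⟨Or.inr h.1, h.2⟩⟩
  rintro ⟨rfl | h, h'⟩
  · exact he.elim (absurd · h'.1) (absurd · h'.2)
  · exact ⟨h, h'⟩

/-- the conditional probability of a connection, given the cluster of `z` -/
noncomputable def H (q v : K) (s t : ι → V) (c : Finset ι → V → V → Prop) (r : Finset ι → ℕ)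
    (z z' y : V) (E B Y : Finset ι) : K :=
  ind (¬ c Y z z') * φ q v r (out s t c z Y E) (out s t c z Y B) fun Y' => ind (c Y' z' y)

lemma H_anti (h : Cn s t c r) (hq : 1 ≤ q) (hv : 0 ≤ v) (z z' y : V) (E B : Finset ι) :
    Monotone fun Y => -H q v s t c r z z' y E B Y := fun Y Y' hY => by
  have hq0 : 0 < q := by linarith
  have h1 : ∀ F, out s t c z Y' F ⊆ out s t c z Y F := fun F g hg =>
    mem_out.2 ⟨(mem_out.1 hg).1, mt (h.mono hY) (mem_out.1 hg).2.1, mt (h.mono hY) (mem_out.1 hg).2.2⟩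
  exact neg_le_neg (mul_le_mul (ind_mono (mt (h.mono hY)))
    (φ_mono h hq hv (h1 E) (h1 B) fun _ _ hW => ind_mono (h.mono hW))
    (φ_nonneg hq0 hv _ _ fun _ => ind_nonneg _) (ind_nonneg _))

/-- the statement of the inequality for one set of free edges -/
def Ru (q v : K) (c : Finset ι → V → V → Prop) (r : Finset ι → ℕ) (Vs : Finset V)
    (E : Finset ι) : Prop :=
  ∀ (B : Finset ι) (f : Finset ι → K), Monotone f → ∀ z y : V,
    S q v r E B (fun Y => ind (c Y z y) * (f Y - φ q v r E B f)) ≤ cost q v r E B (N c Vs z) f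

lemma reveal (h : Cn s t c r) (hq : 1 ≤ q) (hv : 0 ≤ v) (Vs : Finset V) (z z' y : V)
    {f : Finset ι → K} (hf : Monotone f) (E : Finset ι) : (∀ F ⊆ E, Ru q v c r Vs F) → ∀ B,
      S q v r E B (fun Y => ind (¬ c Y z z') * ind (c Y z' y) * f Y) ≤
        S q v r E B (fun Y => H q v s t c r z z' y E B Y * f Y) +
          cost q v r E B (fun Y => ind (¬ c Y z z') * N c Vs z' Y) f := by
  have hq0 : 0 < q := by linarith
  induction E using Finset.strongInduction with
  | H E ih =>
  intro hR B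
  by_cases hE : ∃ e ∈ E, c B z (s e) ∨ c B z (t e)
  · obtain ⟨e, he, hc⟩ := hE
    obtain ⟨E, rfl, he'⟩ : ∃ E', E = insert e E' ∧ e ∉ E' :=
      ⟨E.erase e, (insert_erase he).symm, notMem_erase _ _⟩
    have h0 := ih E (ssubset_insert he') fun F hF => hR F (hF.trans (subset_insert _ _))
    have hc' : ∀ Y, B ⊆ Y → c Y z (s e) ∨ c Y z (t e) := fun Y hY =>
      hc.imp (h.mono hY) (h.mono hY)
    rw [S_insert he', S_insert he', cost_insert he',
      S_congr (g := fun Y => H q v s t c r z z' y (insert e E) B Y * f Y)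
        (g' := fun Y => H q v s t c r z z' y E B Y * f Y)
        fun X _ => by simp only [H, out_insert (hc' _ subset_union_left)],
      S_congr (B := insert e B) (g := fun Y => H q v s t c r z z' y (insert e E) B Y * f Y)
        (g' := fun Y => H q v s t c r z z' y E (insert e B) Y * f Y) fun X _ => by
          simp only [H, out_insert (hc' _ ((subset_insert _ _).trans subset_union_left))]]
    have h1 : 0 ≤ S q v r E B fun Y =>
        ind (¬ c Y z z') * N c Vs z' Y * (f (insert e Y) - f Y) := S_nonneg hq0 hv fun _ _ =>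
      mul_nonneg (mul_nonneg (ind_nonneg _) (N_nonneg _ _ _))
        (sub_nonneg.2 (hf (subset_insert _ _)))
    linarith [h0 B, mul_le_mul_of_nonneg_left (h0 (insert e B)) hv, mul_nonneg hv h1]
  · have hE' : ∀ g ∈ E, ¬ c B z (s g) ∧ ¬ c B z (t g) := fun g hg =>
      ⟨fun h => hE ⟨g, hg, Or.inl h⟩, fun h => hE ⟨g, hg, Or.inr h⟩⟩
    have hB : ∀ g ∈ B, c B z (s g) ↔ c B z (t g) := fun g hg =>
      ⟨fun h' => h.trans h' (h.edge hg), fun h' => h.trans h' (h.symm (h.edge hg))⟩
    have h1 : ∀ X ⊆ E, c (B ∪ X) z = c B z := fun X hX => funext fun a =>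
      propext (h.far (c B z) hB X (fun g hg => hE' g (hX hg)) _ _ (h.refl _ _))
    have h2 : out s t c z B E = E := by
      ext g; exact mem_out.trans ⟨fun h => h.1, fun h => ⟨h, hE' g h⟩⟩
    have h3 : ∀ X ⊆ E, ∀ F, out s t c z (B ∪ X) F = out s t c z B F := fun X hX F => by
      ext g; simp only [mem_out, h1 X hX]
    rw [S_congr (g' := fun Y => ind (¬ c B z z') * (ind (c Y z' y) * f Y))
        fun X hX => by simp only [h1 X hX, mul_assoc],
      S_congr (g := fun Y => H q v s t c r z z' y E B Y * f Y)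
        (g' := fun Y => H q v s t c r z z' y E B B * f Y)
        fun X hX => by simp only [H, h1 X hX, h3 X hX],
      cost_congr f (n' := fun Y => ind (¬ c B z z') * N c Vs z' Y)
        fun X hX => by simp only [h1 X hX],
      S_mul, S_mul, cost_mul, H, h2]
    by_cases hz : c B z z'
    · simp [ind_neg (not_not.2 hz)]
    · have h4 := φ_loc (v := v) h hq (c B z) hE' (B := out s t c z B B)
        (fun g hg => hB g (mem_out.1 hg).1) hz y (B \ out s t c z B B) fun g hg => by
          have h5 := mem_sdiff.1 hg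
          have h6 := hB g h5.1
          have h7 := mt mem_out.2 h5.2
          tauto
      rw [union_sdiff_of_subset fun g hg => (mem_out.1 hg).1] at h4
      have h5 := hR E subset_rfl B f hf z' y
      simp only [mul_sub, S_sub, mul_comm (ind _ : K) (φ q v r E B f), S_mul] at h5
      rw [ind_pos hz, ← h4]
      have h6 : φ q v r E B (fun Y => ind (c Y z' y)) * S q v r E B f =
          φ q v r E B f * S q v r E B fun Y => ind (c Y z' y) := by
        simp only [φ]; ring
      linarith

lemma key (hq : 1 ≤ q) {p p' d : Prop} (h1 : d → (p ↔ p')) (h2 : p → p' → d) :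
    ρ q d * ind (p ∨ p') =
      q⁻¹ * (ind p + ((q - 1) * ind p' + (2 - q) * (ind (¬ d) * ind p'))) := by
  have hq0 : q ≠ 0 := by positivity
  by_cases hp : p <;> by_cases hp' : p' <;> by_cases hd : d <;>
    simp_all [ρ, ind] <;> field_simp <;> ring

lemma step (h : Cn s t c r) (hq : 1 ≤ q) (hq2 : q ≤ 2) (hv : 0 ≤ v) {Vs : Finset V}
    {E B : Finset ι} {e : ι} (he : e ∉ E) (hR : ∀ F ⊆ E, Ru q v c r Vs F) {z z' : V}
    (h1 : ∀ Y, B ⊆ Y → ∀ y, c (insert e Y) z y ↔ c Y z y ∨ c Y z' y)
    (h2 : ∀ Y, B ⊆ Y → (c Y (s e) (t e) ↔ c Y z z')) (h3 : ∃ x ∈ Vs, c B z x)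
    {f : Finset ι → K} (hf : Monotone f) (y : V) :
    S q v r (insert e E) B (fun Y => ind (c Y z y) * (f Y - φ q v r (insert e E) B f)) ≤
      cost q v r (insert e E) B (N c Vs z) f := by
  have hq0 : 0 < q := by linarith
  have hk : ∀ X y, ρ q (c (B ∪ X) (s e) (t e)) * ind (c (insert e (B ∪ X)) z y) =
      q⁻¹ * (ind (c (B ∪ X) z y) + ((q - 1) * ind (c (B ∪ X) z' y) +
        (2 - q) * (ind (¬ c (B ∪ X) z z') * ind (c (B ∪ X) z' y)))) := fun X y => by
    rw [propext (h1 _ subset_union_left y), propext (h2 _ subset_union_left)]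
    exact key hq (fun hd => ⟨h.trans (h.symm hd), h.trans hd⟩) fun a b => h.trans a (h.symm b)
  have hf1 : Monotone fun Y => f (insert e Y) := fun _ _ hY => hf (insert_subset_insert _ hY)
  have hm := φ_ins h hq hv he B hf
  generalize φ q v r (insert e E) B f = m at hm ⊢
  have a0 := hR E subset_rfl B f hf z y
  have a1 := hR E subset_rfl B _ hf1 z y
  have a2 := hR E subset_rfl B _ hf1 z' y
  have hm1 : φ q v r E B f ≤ φ q v r E B fun Y => f (insert e Y) :=
    div_le_div_of_nonneg_right (S_le hq0 hv fun _ _ => hf (subset_insert _ _)) (Z_pos hq0 hv _ _).le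
  have a5 : S q v r E B (fun _ => (φ q v r E B fun Y => f (insert e Y)) - φ q v r E B f) ≤
      S q v r E B fun Y => N c Vs z Y * (f (insert e Y) - f Y) := by
    rw [S_const, sub_mul, φ_mul_Z hq0 hv, φ_mul_Z hq0 hv, ← S_sub]
    refine S_le hq0 hv fun X _ => le_mul_of_one_le_left (sub_nonneg.2 (hf (subset_insert _ _))) ?_
    obtain ⟨x, hx, hc⟩ := h3
    exact (ind_pos (h.mono subset_union_left hc)).ge.trans
      (single_le_sum (f := fun y => (ind (c (B ∪ X) z y) : K)) (fun _ _ => ind_nonneg _) hx)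
  have hc := S_center (r := r) hq0 hv E B fun Y => f (insert e Y)
  generalize (φ q v r E B fun Y => f (insert e Y)) = m1 at *
  have hf2 : Monotone fun Y => f (insert e Y) - m1 := fun _ _ hY => sub_le_sub_right (hf1 hY) _
  have a3 := reveal h hq hv Vs z z' y hf2 E hR B
  have a4 := fkg h hq hv E B _ _ (H_anti h hq hv z z' y E B) hf2
  rw [hc, mul_zero] at a4
  have a4' := nonneg_of_mul_nonneg_right a4 (Z_pos hq0 hv _ _)
  have b0 : S q v r E B (fun Y => ind (c Y z y) * (f Y - m)) ≤
      S q v r E B fun Y => ind (c Y z y) * (f Y - φ q v r E B f) :=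
    S_le hq0 hv fun _ _ => mul_le_mul_of_nonneg_left (by linarith) (ind_nonneg _)
  have b1 : S q v r E B (fun Y => ρ q (c Y (s e) (t e)) *
      (ind (c (insert e Y) z y) * (f (insert e Y) - m))) ≤ S q v r E B fun Y =>
        q⁻¹ * (ind (c Y z y) * (f (insert e Y) - m1) +
          ((q - 1) * (ind (c Y z' y) * (f (insert e Y) - m1)) +
          (2 - q) * (ind (¬ c Y z z') * ind (c Y z' y) * (f (insert e Y) - m1)))) +
          (m1 - φ q v r E B f) := by
    refine S_le hq0 hv fun X _ => ?_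
    have c1 := hk X y
    have c2 := mul_nonneg (ρ_pos hq (c (B ∪ X) (s e) (t e))).le
      (ind_nonneg (K := K) (c (insert e (B ∪ X)) z y))
    have c3 := mul_le_one₀ (ρ_le_one hq (c (B ∪ X) (s e) (t e)))
      (ind_nonneg (K := K) (c (insert e (B ∪ X)) z y)) (ind_le_one _)
    rw [← mul_assoc]
    nlinarith [mul_le_mul_of_nonneg_left hm c2, mul_le_mul_of_nonneg_right c3 (sub_nonneg.2 hm1),
      congrArg (· * (f (insert e (B ∪ X)) - m1)) c1]
  have b2 : ∀ Y, -H q v s t c r z z' y E B Y * (f (insert e Y) - m1) =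
      -1 * (H q v s t c r z z' y E B Y * (f (insert e Y) - m1)) := fun Y => by ring
  simp only [b2, S_mul] at a4'
  have b3 : cost q v r E B (fun Y => ind (¬ c Y z z') * N c Vs z' Y)
      (fun Y => f (insert e Y) - m1) = cost q v r E B (fun Y => ind (¬ c Y z z') * N c Vs z' Y)
      fun Y => f (insert e Y) := by simp only [cost, sub_sub_sub_cancel_right]
  rw [S_insert he, S_base h, cost_insert he, cost_base h,
    cost_congr _ (n := fun Y => ρ q (c Y (s e) (t e)) * N c Vs z (insert e Y))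
      (n' := fun Y => q⁻¹ * (N c Vs z Y + ((q - 1) * N c Vs z' Y +
        (2 - q) * (ind (¬ c Y z z') * N c Vs z' Y)))) fun X _ => by
      simp only [N, mul_sum, ← sum_add_distrib, hk],
    cost_mul, cost_add, cost_add, cost_mul, cost_mul]
  rw [S_add, S_mul, S_add, S_add, S_mul, S_mul] at b1
  have b4 := mul_le_mul_of_nonneg_left (add_le_add a1 (add_le_add
    (mul_le_mul_of_nonneg_left a2 (sub_nonneg.2 hq))
    (mul_le_mul_of_nonneg_left (a3.trans (add_le_of_nonpos_left (by linarith))|>.trans b3.le)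
      (sub_nonneg.2 hq2)))) (inv_pos.2 hq0).le
  linarith [mul_le_mul_of_nonneg_left (b1.trans (add_le_add b4 a5)) hv]

theorem ru (h : Cn s t c r) (hq : 1 ≤ q) (hq2 : q ≤ 2) (hv : 0 ≤ v) (Vs : Finset V)
    (E : Finset ι) : (∀ e ∈ E, s e ∈ Vs ∧ t e ∈ Vs) → Ru q v c r Vs E := by
  have hq0 : 0 < q := by linarith
  induction E using Finset.strongInduction with
  | H E ih =>
  intro hV B f hf z y
  by_cases hE : ∃ e ∈ E, c B z (s e) ∨ c B z (t e)
  · obtain ⟨e, he, hc⟩ := hE
    have hVe := hV e he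
    obtain ⟨E, rfl, he'⟩ : ∃ E', E = insert e E' ∧ e ∉ E' :=
      ⟨E.erase e, (insert_erase he).symm, notMem_erase _ _⟩
    have hR : ∀ F ⊆ E, Ru q v c r Vs F := fun F hF =>
      ih F (hF.trans_ssubset (ssubset_insert he')) fun g hg => hV g (mem_insert_of_mem (hF hg))
    rcases hc with hc | hc
    · refine step h hq hq2 hv he' hR (z' := t e) (fun Y hY y => ?_) (fun Y hY => ?_)
        ⟨_, hVe.1, hc⟩ hf y
      · have := h.mono hY hc
        rw [h.ins]
        exact ⟨fun a => a.elim Or.inl fun a => a.elim (fun a => Or.inr a.2)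
          fun a => Or.inl (h.trans this a.2), fun a => a.imp_right fun a => Or.inl ⟨this, a⟩⟩
      · exact ⟨h.trans (h.mono hY hc), h.trans (h.symm (h.mono hY hc))⟩
    · refine step h hq hq2 hv he' hR (z' := s e) (fun Y hY y => ?_) (fun Y hY => ?_)
        ⟨_, hVe.2, hc⟩ hf y
      · have := h.mono hY hc
        rw [h.ins]
        exact ⟨fun a => a.elim Or.inl fun a => a.elim (fun a => Or.inl (h.trans this a.2))
          fun a => Or.inr a.2, fun a => a.imp_right fun a => Or.inr ⟨this, a⟩⟩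
      · exact ⟨fun a => h.trans (h.mono hY hc) (h.symm a),
          fun a => h.trans (h.symm a) (h.mono hY hc)⟩
  · have h1 : ∀ X ⊆ E, c (B ∪ X) z y = c B z y := fun X hX =>
      propext (h.far (c B z) (fun g hg => ⟨fun h' => h.trans h' (h.edge hg),
        fun h' => h.trans h' (h.symm (h.edge hg))⟩) X (fun g hg =>
        ⟨fun h => hE ⟨g, hX hg, Or.inl h⟩, fun h => hE ⟨g, hX hg, Or.inr h⟩⟩) _ _ (h.refl _ _))
    rw [S_congr (g' := fun Y => ind (c B z y) * (f Y - φ q v r E B f))
      fun X hX => by simp only [h1 X hX], S_mul, S_center hq0 hv, mul_zero]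
    exact cost_nonneg hq0 hv _ _ (N_nonneg _ _) hf

/-- the reverse Russo inequality -/
theorem russo (h : Cn s t c r) (hq : 1 ≤ q) (hq2 : q ≤ 2) (hv : 0 ≤ v) {Vs : Finset V}
    {E : Finset ι} (hV : ∀ e ∈ E, s e ∈ Vs ∧ t e ∈ Vs) (B : Finset ι) {f : Finset ι → K}
    (hf : Monotone f) (z y : V) :
    S q v r E B (fun Y => ind (c Y z y) * (f Y - φ q v r E B f)) ≤ cost q v r E B (N c Vs z) f :=
  ru h hq hq2 hv Vs E hV B f hf z y

end Pool.Agent.Lib.GJ.H10
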