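import Pool.Agent.Lib.GJ.PI
import Pool.Agent.Lib.FL.B_EST

/-! The product estimator for the random cluster partition function. -/

noncomputable section

namespace Pool.Agent.Lib.GJ.H65

open Finset Pool.Agent.Lib.MP_b67cc8_lc Pool.Agent.FL.Mix28 Pool.Agent.Lib.FL

/-- mean square error of the product estimator from the first two moments of the stages -/
theorem ms2 {K N R : ℕ} (hR : K * N ≤ R) (u v : ℕ → List Bool → ℕ) (ν : ℕ → ℝ) {ε δ : ℝ}
    (ε0 : 0 ≤ ε) (hν : ∀ j, j < N → 0 < ν j)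
    (h1 : ∀ j, j < N → (1 - δ) * ν j ≤ Ex K fun x => (u j x : ℝ) / v j x)
    (h2 : ∀ j, j < N → (Ex K fun x => ((u j x : ℝ) / v j x) ^ 2) ≤ (1 + ε) * ν j ^ 2)
    (q1 : (N : ℝ) * ε ≤ 1) (δ1 : δ ≤ 1) :
    Ex R (fun r => (((rit K (pst u v) N (0, 1, 1) r).2.1 : ℝ) /
        (rit K (pst u v) N (0, 1, 1) r).2.2 - ∏ j ∈ range N, ν j) ^ 2) ≤
      2 * (N * (ε + δ)) * (∏ j ∈ range N, ν j) ^ 2 := by
  have m1 := pst_mom K u v 1 N 0 1 1
  have m2 := pst_mom K u v 2 N 0 1 1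
  rw [← Ex_rit _ _ _ _ R _ hR] at m1 m2
  simp only [pow_one, Nat.cast_one, div_one, one_mul, zero_add, one_pow] at m1 m2
  set T := ∏ j ∈ range N, ν j with hT
  have T0 : 0 < T := prod_pos fun j hj => hν j (mem_range.1 hj)
  have N0 : (0 : ℝ) ≤ N := Nat.cast_nonneg N
  have a1 : (1 - N * δ) * T ≤ ∏ i ∈ range N, Ex K fun x => (u i x : ℝ) / v i x := by
    calc (1 - N * δ) * T ≤ (1 - δ) ^ N * T := by
          refine mul_le_mul_of_nonneg_right ?_ T0.le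
          have := one_add_mul_le_pow (show (-2 : ℝ) ≤ -δ by linarith) N
          simpa [sub_eq_add_neg] using this
      _ = ∏ i ∈ range N, ((1 - δ) * ν i) := by rw [prod_mul_distrib, prod_const, card_range]
      _ ≤ _ := prod_le_prod (fun i hi => mul_nonneg (by linarith) (hν i (mem_range.1 hi)).le)
          fun i hi => h1 i (mem_range.1 hi)
  have a2 : (∏ i ∈ range N, Ex K fun x => ((u i x : ℝ) / v i x) ^ 2) ≤
      (1 + 2 * (N * ε)) * T ^ 2 := by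
    calc _ ≤ ∏ i ∈ range N, ((1 + ε) * ν i ^ 2) :=
          prod_le_prod (fun i _ => Ex_nonneg fun _ _ => sq_nonneg _) fun i hi =>
            h2 i (mem_range.1 hi)
      _ = (1 + ε) ^ N * T ^ 2 := by
          rw [prod_mul_distrib, prod_const, card_range, prod_pow]
      _ ≤ _ := by
          refine mul_le_mul_of_nonneg_right ?_ (sq_nonneg _)
          have b1 : (1 + ε) ^ N ≤ Real.exp (N * ε) := by
            rw [Real.exp_nat_mul]
            refine pow_le_pow_left₀ (by positivity) ?_ N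
            linarith [Real.add_one_le_exp ε]
          have b0 : 0 ≤ (N : ℝ) * ε := by positivity
          have b2 := (abs_le.1 (Real.abs_exp_sub_one_le (x := N * ε) (by
            rw [abs_of_nonneg b0]; exact q1))).2
          rw [abs_of_nonneg b0] at b2
          linarith
  rw [← m1] at a1
  rw [← m2] at a2
  generalize rit K (pst u v) N (0, 1, 1) = S at *
  have e : Ex R (fun r => (((S r).2.1 : ℝ) / (S r).2.2 - T) ^ 2) =
      Ex R fun r => T ^ 2 + (-(2 * T) * (((S r).2.1 : ℝ) / (S r).2.2) +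
        (((S r).2.1 : ℝ) / (S r).2.2) ^ 2) := Ex_congr fun r _ => by ring
  rw [e, Ex_add, Ex_add, Ex_const, Ex_mul]
  nlinarith [mul_le_mul_of_nonneg_left a1 T0.le]

theorem r1 {a b c p μ δ : ℝ} (a1 : 1 ≤ a) (b0 : 0 ≤ b) (bc : b ≤ c) (p0 : 0 ≤ p)
    (h : |μ - p| ≤ δ) : (1 - c * δ) * (a + b * p) ≤ a + b * μ := by
  have δ0 : 0 ≤ δ := (abs_nonneg _).trans h
  have h1 := mul_le_mul_of_nonneg_left (abs_le.1 h).1 b0
  have h2 := mul_le_mul_of_nonneg_right bc δ0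
  have h3 : c * δ * 1 ≤ c * δ * (a + b * p) :=
    mul_le_mul_of_nonneg_left (by nlinarith [mul_nonneg b0 p0]) (mul_nonneg (b0.trans bc) δ0)
  nlinarith

theorem r2 {a b c p μ δ s : ℝ} (a1 : 1 ≤ a) (b0 : 0 ≤ b) (bc : b ≤ c) (p0 : 0 ≤ p) (μ0 : 0 ≤ μ)
    (h : |μ - p| ≤ δ) (s0 : 0 < s) (c1 : c * δ ≤ 1) :
    (a + b * μ) ^ 2 + b ^ 2 * (μ * (1 - μ)) / s ≤
      (1 + (3 * (c * δ) + c ^ 2 / s)) * (a + b * p) ^ 2 := by
  have δ0 : 0 ≤ δ := (abs_nonneg _).trans h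
  have c0 : 0 ≤ c * δ := mul_nonneg (b0.trans bc) δ0
  have n1 : 1 ≤ a + b * p := by nlinarith [mul_nonneg b0 p0]
  have h1 := mul_le_mul_of_nonneg_left (abs_le.1 h).2 b0
  have h2 := mul_le_mul_of_nonneg_right bc δ0
  have h3 : c * δ * 1 ≤ c * δ * (a + b * p) := mul_le_mul_of_nonneg_left n1 c0
  have h4 : a + b * μ ≤ (1 + c * δ) * (a + b * p) := by nlinarith
  have h5 : (a + b * μ) ^ 2 ≤ ((1 + c * δ) * (a + b * p)) ^ 2 :=
    pow_le_pow_left₀ (by nlinarith [mul_nonneg b0 μ0]) h4 2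
  have h6 : (1 + c * δ) ^ 2 ≤ 1 + 3 * (c * δ) := by nlinarith
  have h7 : b ^ 2 * (μ * (1 - μ)) / s ≤ c ^ 2 / s := by
    refine div_le_div_of_nonneg_right ?_ s0.le
    have := pow_le_pow_left₀ b0 bc 2
    have : μ * (1 - μ) ≤ 1 := by nlinarith [sq_nonneg (μ - 1)]
    nlinarith [sq_nonneg b]
  have h8 : c ^ 2 / s * 1 ≤ c ^ 2 / s * (a + b * p) ^ 2 :=
    mul_le_mul_of_nonneg_left (one_le_pow₀ n1) (by positivity)
  rw [mul_pow] at h5
  nlinarith [mul_le_mul_of_nonneg_right h6 (sq_nonneg (a + b * p))]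

/-- the two moments of one stage -/
theorem stage (K al be M s : ℕ) (g : List Bool → Bool) (M0 : 0 < M) (s0 : 0 < s) {μ : ℝ}
    (hμ : μ = Ex K fun x => (g x).toNat) :
    (Ex (K * s) fun x => ((al * s + be * cnt K g s x : ℕ) : ℝ) / (M * s : ℕ)) =
        al / M + be / M * μ ∧
      (Ex (K * s) fun x => (((al * s + be * cnt K g s x : ℕ) : ℝ) / (M * s : ℕ)) ^ 2) =
        (al / M + be / M * μ) ^ 2 + (be / M) ^ 2 * (μ * (1 - μ)) / s := by
  obtain ⟨e1, e2⟩ := Ex_cnt K g s le_rfl hμ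
  have M1 : (M : ℝ) ≠ 0 := by exact_mod_cast M0.ne'
  have s1 : (s : ℝ) ≠ 0 := by exact_mod_cast s0.ne'
  constructor
  · rw [Ex_congr (g := fun x => (al : ℝ) / M + be / (M * s) * cnt K g s x) fun x _ => by
      push_cast; field_simp, Ex_add, Ex_const, Ex_mul, e1]
    field_simp
  · rw [Ex_congr (g := fun x => ((al : ℝ) / M) ^ 2 + (2 * (al / M) * (be / (M * s)) * cnt K g s x +
      (be / (M * s)) ^ 2 * (cnt K g s x : ℝ) ^ 2)) fun x _ => by
        push_cast; field_simp; ring, Ex_add, Ex_add, Ex_const, Ex_mul, Ex_mul, e1, e2]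
    field_simp
    ring

/-- the partition function on the first `j` elements -/
def Zf (ρ : Finset ℕ → ℕ) (q v : ℝ) (j : ℕ) : ℝ := ∑ A ∈ (range j).powerset, wt ρ q v A

/-- the indicator that `j` is spanned -/
def sp (ρ : Finset ℕ → ℕ) (j : ℕ) (A : Finset ℕ) : ℝ := if ρ (insert j A) = ρ A then 1 else 0

/-- the probability that `j` is spanned -/
def pr (ρ : Finset ℕ → ℕ) (q v : ℝ) (j : ℕ) : ℝ :=
  (∑ A ∈ (range j).powerset, wt ρ q v A * sp ρ j A) / ∑ A ∈ (range j).powerset, wt ρ q v A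

variable {ρ : Finset ℕ → ℕ} {q v : ℝ}

theorem sp_nonneg (ρ : Finset ℕ → ℕ) (j : ℕ) (A : Finset ℕ) : 0 ≤ sp ρ j A := by
  unfold sp; split_ifs <;> norm_num

theorem sp_le_one (ρ : Finset ℕ → ℕ) (j : ℕ) (A : Finset ℕ) : sp ρ j A ≤ 1 := by
  unfold sp; split_ifs <;> norm_num

theorem sp_mono (h : H64.IsRk ρ) (j : ℕ) : Monotone (sp ρ j) := fun A B hAB => by
  unfold sp
  split_ifs with a b
  · rfl
  · exfalso
    have h1 := h.sub (insert j A) B
    have h2 := h.mono A (insert j A ∩ B) (subset_inter (subset_insert _ _) hAB)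
    have h3 := h.mono B (insert j B) (subset_insert _ _)
    rw [insert_union, union_eq_right.2 hAB] at h1
    omega
  · norm_num
  · rfl

theorem wt_pos (q0 : 0 < q) (v0 : 0 < v) (A : Finset ℕ) : 0 < wt ρ q v A := by
  unfold wt; positivity

theorem Zf_pos (q0 : 0 < q) (v0 : 0 < v) (j : ℕ) : 0 < Zf ρ q v j :=
  sum_pos (fun A _ => wt_pos q0 v0 A) ⟨∅, empty_mem_powerset _⟩

theorem Zf_zero (h : H64.IsRk ρ) : Zf ρ q v 0 = 1 := by simp [Zf, wt, h.empty]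

theorem wt_insert (h : H64.IsRk ρ) (q0 : 0 < q) {j : ℕ} {A : Finset ℕ} (hj : j ∉ A) :
    wt ρ q v (insert j A) = wt ρ q v A * (v / q + v * (1 - 1 / q) * sp ρ j A) := by
  unfold wt sp
  rw [card_insert_of_notMem hj]
  split_ifs with a
  · rw [a]; field_simp; ring
  · have h1 := h.ins A j
    have h2 := h.mono A (insert j A) (subset_insert _ _)
    rw [show ρ (insert j A) = ρ A + 1 by omega]
    field_simp
    ring

theorem Zf_succ (h : H64.IsRk ρ) (q0 : 0 < q) (v0 : 0 < v) (j : ℕ) :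
    Zf ρ q v (j + 1) / Zf ρ q v j = 1 + v / q + v * (1 - 1 / q) * pr ρ q v j := by
  have Z0 := (Zf_pos (ρ := ρ) q0 v0 j).ne'
  have e : Zf ρ q v (j + 1) = (1 + v / q) * Zf ρ q v j +
      v * (1 - 1 / q) * ∑ A ∈ (range j).powerset, wt ρ q v A * sp ρ j A := by
    unfold Zf
    rw [range_add_one, sum_powerset_insert notMem_range_self, mul_sum, mul_sum, ← sum_add_distrib,
      ← sum_add_distrib]
    refine sum_congr rfl fun A hA => ?_
    rw [wt_insert h q0 fun c => notMem_range_self (mem_powerset.1 hA c)]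
    ring
  rw [e]
  unfold pr
  unfold Zf at Z0 ⊢
  field_simp

theorem pr_nonneg (q0 : 0 < q) (v0 : 0 < v) (j : ℕ) : 0 ≤ pr ρ q v j :=
  div_nonneg (sum_nonneg fun A _ => mul_nonneg (wt_pos q0 v0 A).le (sp_nonneg ρ j A))
    (Zf_pos q0 v0 j).le

/-- the Tutte polynomial and the partition function -/
theorem tut_eq (h : H64.IsRk ρ) {x y : ℚ} (hx : 1 < x) (hy : 1 < y) (m : ℕ) :
    ((A80.tut m ρ x y : ℚ) : ℝ) =
      ((x : ℝ) - 1) ^ ρ (range m) * Zf ρ ((x - 1) * (y - 1)) (y - 1) m := by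
  have x0 : (x : ℝ) - 1 ≠ 0 := sub_ne_zero.2 (by exact_mod_cast hx.ne')
  have y0 : (y : ℝ) - 1 ≠ 0 := sub_ne_zero.2 (by exact_mod_cast hy.ne')
  unfold A80.tut Zf wt
  push_cast
  rw [mul_sum]
  refine sum_congr rfl fun A hA => ?_
  rw [pow_sub₀ _ x0 (h.mono _ _ (mem_powerset.1 hA)), pow_sub₀ _ y0 (h.le_card A), mul_pow]
  field_simp

theorem r3 {m k c δ s : ℝ} (m0 : 0 ≤ m) (k1 : 1 ≤ k) (c0 : 0 ≤ c) (δ0 : 0 ≤ δ) (s0 : 0 < s)
    (hs : 16 * c ^ 2 * m * k ^ 2 ≤ s) (hδ : 64 * c * (m + 1) * k ^ 2 * δ ≤ 1) :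
    c * δ ≤ 1 ∧ m * (3 * (c * δ) + c ^ 2 / s) ≤ 1 ∧
      2 * (m * (3 * (c * δ) + c ^ 2 / s + c * δ)) ≤ 1 / (4 * k ^ 2) := by
  have k2 : 1 ≤ k ^ 2 := one_le_pow₀ k1
  have k0 : 0 < k ^ 2 := by linarith
  have d0 := mul_nonneg c0 δ0
  have a1 : (m + 1) * (c * δ) ≤ 1 / 16 * (1 / (4 * k ^ 2)) := by
    rw [div_mul_div_comm, le_div_iff₀ (by positivity)]
    linarith
  have a2 : m * (c ^ 2 / s) ≤ 1 / 4 * (1 / (4 * k ^ 2)) := by
    rw [div_mul_div_comm, ← mul_div_assoc, div_le_div_iff₀ s0 (by positivity)]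
    linarith
  have a3 : 1 / (4 * k ^ 2) ≤ 1 := by
    rw [div_le_one (by positivity)]
    linarith
  have a4 := mul_nonneg m0 d0
  refine ⟨?_, ?_, ?_⟩ <;> nlinarith

/-- the estimator of the partition function -/
def estZ (K m al be M s : ℕ) (g : ℕ → List Bool → Bool) (x : List Bool) : ℕ × ℕ :=
  (rit (K * s) (pst (fun j x => al * s + be * cnt K (g j) s x) fun _ _ => M * s) m (0, 1, 1) x).2

theorem est (h : H64.IsRk ρ) (q1 : 1 ≤ q) (v0 : 0 < v) {K m al be M s k l : ℕ}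
    (g : ℕ → List Bool → Bool) (M0 : 0 < M) (s0 : 0 < s) (k0 : 0 < k)
    (hal : (al : ℝ) = M * (1 + v / q)) (hbe : (be : ℝ) = M * (v * (1 - 1 / q))) {δ : ℝ}
    (δ0 : 0 ≤ δ) (hg : ∀ j < m, |(Ex K fun x => (g j x).toNat) - pr ρ q v j| ≤ δ)
    (hs : 16 * v ^ 2 * m * k ^ 2 ≤ s) (hδ : 64 * v * (m + 1) * k ^ 2 * δ ≤ 1)
    (hl : K * s * m ≤ l) :
    (∀ x, 0 < (estZ K m al be M s g x).2) ∧
      Ex l (fun x => (((estZ K m al be M s g x).1 : ℝ) / (estZ K m al be M s g x).2 -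
        Zf ρ q v m) ^ 2) ≤ Zf ρ q v m ^ 2 / (4 * k ^ 2) := by
  have q0 : 0 < q := by linarith
  have M1 : (0 : ℝ) < M := by exact_mod_cast M0
  have s1 : (0 : ℝ) < s := by exact_mod_cast s0
  refine ⟨fun x => A80.EST.rit_pos _ m _ _ (fun _ _ _ => Nat.mul_pos M0 s0) _ 0 1 1 x one_pos
    (by omega), ?_⟩
  have ea : (al : ℝ) / M = 1 + v / q := by rw [hal]; field_simp
  have eb : (be : ℝ) / M = v * (1 - 1 / q) := by rw [hbe]; field_simp
  have a1 : 1 ≤ 1 + v / q := le_add_of_nonneg_right (by positivity)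
  have i1 : 1 / q ≤ 1 := by rw [div_le_one q0]; exact q1
  have i0 : 0 < 1 / q := by positivity
  have b0 : 0 ≤ v * (1 - 1 / q) := mul_nonneg v0.le (by linarith)
  have bc : v * (1 - 1 / q) ≤ v := mul_le_of_le_one_right v0.le (by linarith)
  obtain ⟨c1, c2, c3⟩ := r3 (Nat.cast_nonneg m) (by exact_mod_cast k0) v0.le δ0 s1 hs hδ
  have key := ms2 (K := K * s) (N := m) (R := l) hl
    (fun j x => al * s + be * cnt K (g j) s x) (fun _ _ => M * s)
    (fun j => Zf ρ q v (j + 1) / Zf ρ q v j) (ε := 3 * (v * δ) + v ^ 2 / s) (δ := v * δ)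
    (by positivity) (fun j _ => div_pos (Zf_pos q0 v0 _) (Zf_pos q0 v0 _))
    (fun j hj => by
      rw [(stage K al be M s (g j) M0 s0 rfl).1, Zf_succ h q0 v0, ea, eb]
      exact r1 a1 b0 bc (pr_nonneg q0 v0 j) (hg j hj))
    (fun j hj => by
      rw [(stage K al be M s (g j) M0 s0 rfl).2, Zf_succ h q0 v0, ea, eb]
      exact r2 a1 b0 bc (pr_nonneg q0 v0 j) (Ex_nonneg fun _ _ => Nat.cast_nonneg _) (hg j hj)
        s1 c1) c2 c1
  rw [A80.EST.tel (N := m) (fun t _ => Zf_pos q0 v0 t) m le_rfl, Zf_zero h, div_one] at key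
  refine key.trans ?_
  rw [div_eq_mul_one_div (Zf ρ q v m ^ 2), mul_comm (Zf ρ q v m ^ 2)]
  exact mul_le_mul_of_nonneg_right c3 (sq_nonneg _)

end Pool.Agent.Lib.GJ.H65
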