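import Pool.Agent.Lib.FL.Fin79

/-! Interface between the Poincare inequality and the algorithm (MP_b67cc8_lc, `1 ≤ q ≤ 2`). -/

noncomputable section

namespace Pool.Agent.Lib.GJ

open Finset Pool.Agent.Lib.helper82 Pool.Agent.Lib.MP_b67cc8_lc Pool.Agent.Lib.FL
open Pool.Agent.Lib.MP_dec383_lc (UN)

/-- the random cluster weight -/
def wt (ρ : Finset ℕ → ℕ) (q v : ℝ) (A : Finset ℕ) : ℝ := v ^ A.card / q ^ ρ A

/-- Poincare inequality for increasing functions, on every initial segment of the ground set -/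
def PI (m : ℕ) (ρ : Finset ℕ → ℕ) (q v C : ℝ) : Prop :=
  ∀ j ≤ m, ∀ f : Finset ℕ → ℝ, Monotone f → ∑ A ∈ (range j).powerset, wt ρ q v A * f A = 0 →
    ∑ A ∈ (range j).powerset, wt ρ q v A * f A ^ 2 ≤
      C * ∑ e ∈ range j, ∑ A ∈ (range j).powerset, wt ρ q v A * (f (insert e A) - f A) ^ 2

/-- the mathematical half: graphs satisfy the Poincare inequality for `1 ≤ q ≤ 2` -/
def St_PI : Prop := ∀ q v : ℝ, 1 ≤ q → q ≤ 2 → 0 < v → ∀ E : List (ℕ × ℕ),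
  PI E.length (H10.gr E) q v ((1 + 2 / v) * (1 + 4 * v ^ 2) * (E.length + 1) ^ 4)

/-- the algorithmic half -/
def St_ALG : Prop := ∀ x y : ℚ, 1 < x → 1 < y → 1 ≤ (x - 1) * (y - 1) → ∀ c : ℝ,
  ∀ (α : Type) [Enc α] (m k : α → ℕ) (ρ : α → Finset ℕ → ℕ) (ok : α → Prop),
    H5.Fam m ρ ok → UN k →
    (∀ a, ok a → PI (m a) (ρ a) ((x - 1) * (y - 1)) (y - 1) (c * (m a + 1) ^ 4)) →
    H5.MS k ok fun a => A80.tut (m a) (ρ a) x y

theorem fpr_q12 (hP : St_PI) (hA : St_ALG) {x y : ℚ} (hx : 1 < x) (hy : 1 < y)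
    (h1 : 1 ≤ (x - 1) * (y - 1)) (h2 : (x - 1) * (y - 1) ≤ 2) {r : ℕ → List (ℕ × ℕ) → ℕ}
    (hr : ∀ n A, (∀ e ∈ A, e.1 < n ∧ e.2 < n) → r n A = rk id A) :
    H79.FPR fun n E => (E.sublists.map fun A =>
      (x - 1) ^ (r n E - r n A) * (y - 1) ^ (A.length - r n A)).sum := by
  refine H79.fpr_of_ms (hA x y hx hy h1 _ ((ℕ × List (ℕ × ℕ)) × List Bool) _ _ _ _
    (H10.fam_graph (PT.snd PT.fst') fun _ => True) (UN.length PT.snd') fun a _ =>
      hP _ _ (by exact_mod_cast h1) (by exact_mod_cast h2)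
        (by have : (1 : ℝ) < y := by exact_mod_cast hy
            linarith) a.1.2) fun n E q hE => ⟨trivial, ?_⟩
  exact (H10.tutte_eq E (r n) (fun A hA => hr n A fun e he => hE e (hA he)) x y).symm

end Pool.Agent.Lib.GJ
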