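import Pool.Agent.Lib.GJ.Mix81
import Pool.Agent.Lib.GJ.PI

/-! The lazy heat-bath walk of the random-cluster model: reversible, monotone, and mixing for
monotone observables as soon as a Poincare inequality holds for monotone functions. -/

namespace Pool.Agent.Lib.GJ.H81

open Finset Pool.Agent.Lib.helper82 Pool.Agent.Lib.MP_b67cc8_lc Pool.Agent.FL.Mix28
open Pool.Agent.Lib.FL.H64 (IsRk)

/-- the threshold for opening `e` -/
def thr (r : Finset ℕ → ℕ) (A0 A1 : ℕ) (X : Finset ℕ) (e : ℕ) : ℕ :=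
  if r (insert e X) = r (X.erase e) then A1 else A0

/-- the move for a given edge `e` and a given number `U` -/
def mv (r : Finset ℕ → ℕ) (m A0 A1 M : ℕ) (X : Finset ℕ) (e U : ℕ) : Finset ℕ :=
  if e < m ∧ U < M then (if U < thr r A0 A1 X e then insert e X else X.erase e) else X

/-- one move of the walk, reading `b + B` bits -/
def stp (r : Finset ℕ → ℕ) (m A0 A1 M b : ℕ) (X : Finset ℕ) (x : List Bool) : Finset ℕ :=
  mv r m A0 A1 M X (ofB (x.take b)) (ofB (x.drop b))

theorem Ex2 (b B : ℕ) (F : ℕ → ℕ → ℝ) :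
    Ex (b + B) (fun x => F (ofB (x.take b)) (ofB (x.drop b))) =
      (∑ e ∈ range (2 ^ b), ∑ U ∈ range (2 ^ B), F e U) / 2 ^ (b + B) := by
  have h1 : Ex (b + B) (fun x => F (ofB (x.take b)) (ofB (x.drop b))) =
      Ex b fun x => Ex B fun z => F (ofB x) (ofB z) := by
    rw [Ex_append]
    refine Ex_congr fun x hx => Ex_congr fun z _ => ?_
    rw [List.take_left' hx, List.drop_left' hx]
  rw [h1, Ex_ofB b fun e => Ex B fun z => F e (ofB z)]
  simp only [fun e => Ex_ofB B (F e), ← sum_div]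
  rw [pow_add, div_div, mul_comm]

theorem sum_lt {A P : ℕ} (hA : A ≤ P) (a : ℝ) :
    ∑ U ∈ range P, (if U < A then a else 0) = A * a := by
  rw [← sum_filter]
  have : (range P).filter (fun U => U < A) = range A := by
    ext U
    simp only [mem_filter, mem_range]
    omega
  rw [this, sum_const, card_range, nsmul_eq_mul]

theorem sum_U {A M P : ℕ} (hA : A ≤ M) (hM : M ≤ P) (a b c : ℝ) :
    ∑ U ∈ range P, (if U < M then (if U < A then a else b) else c) =
      P * c + (A * (a - c) + (M - A) * (b - c)) := by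
  have e : ∀ U ∈ range P, (if U < M then (if U < A then a else b) else c) =
      c + ((if U < A then a - b else 0) + if U < M then b - c else 0) := fun U _ => by
    by_cases h1 : U < A
    · have h2 : U < M := by omega
      simp only [if_pos h1, if_pos h2]; ring
    · by_cases h2 : U < M
      · simp only [if_neg h1, if_pos h2]; ring
      · simp only [if_neg h1, if_neg h2]; ring
  rw [sum_congr rfl e, sum_add_distrib, sum_add_distrib, sum_lt (hA.trans hM), sum_lt hM,
    sum_const, card_range, nsmul_eq_mul]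
  ring

variable {r : Finset ℕ → ℕ} {q v : ℝ} {m A0 A1 M b B : ℕ}

theorem thr_le (h0 : A0 ≤ M) (h1 : A1 ≤ M) (X : Finset ℕ) (e : ℕ) : thr r A0 A1 X e ≤ M := by
  unfold thr
  split_ifs
  exacts [h1, h0]

theorem le_thr (h01 : A0 ≤ A1) (X : Finset ℕ) (e : ℕ) : A0 ≤ thr r A0 A1 X e := by
  unfold thr
  split_ifs
  exacts [h01, le_rfl]

theorem Ex_stp (hm : m ≤ 2 ^ b) (hM : M ≤ 2 ^ B) (h0 : A0 ≤ M) (h1 : A1 ≤ M) (X : Finset ℕ)
    (G : Finset ℕ → ℝ) :
    Ex (b + B) (fun x => G (stp r m A0 A1 M b X x)) = G X + (∑ e ∈ range m,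
      ((thr r A0 A1 X e : ℝ) * (G (insert e X) - G X) +
        (M - thr r A0 A1 X e) * (G (X.erase e) - G X))) / 2 ^ (b + B) := by
  have e1 : ∀ e ∈ range (2 ^ b), ∑ U ∈ range (2 ^ B), G (mv r m A0 A1 M X e U) =
      2 ^ B * G X + if e < m then ((thr r A0 A1 X e : ℝ) * (G (insert e X) - G X) +
        (M - thr r A0 A1 X e) * (G (X.erase e) - G X)) else 0 := fun e _ => by
    by_cases he : e < m
    · rw [if_pos he]
      have := sum_U (thr_le (r := r) h0 h1 X e) hM (G (insert e X)) (G (X.erase e)) (G X)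
      push_cast at this
      rw [← this]
      refine sum_congr rfl fun U _ => ?_
      simp only [mv, he, true_and]
      split_ifs <;> rfl
    · simp [mv, he]
  have e2 : (range (2 ^ b)).filter (fun e => e < m) = range m := by
    ext e
    simp only [mem_filter, mem_range]
    omega
  refine (Ex2 b B fun e U => G (mv r m A0 A1 M X e U)).trans ?_
  rw [sum_congr rfl e1, sum_add_distrib, ← sum_filter, e2, sum_const, card_range, nsmul_eq_mul,
    add_div, pow_add]
  push_cast
  congr 1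
  field_simp

theorem stp_mem {X : Finset ℕ} (hX : X ∈ (range m).powerset) (x : List Bool) :
    stp r m A0 A1 M b X x ∈ (range m).powerset := by
  rw [mem_powerset] at hX ⊢
  unfold stp mv
  split_ifs with h1 h2
  exacts [insert_subset (mem_range.2 h1.1) hX, (erase_subset _ _).trans hX, hX]

theorem thr_mono (h : IsRk r) (h01 : A0 ≤ A1) {X Y : Finset ℕ} (hXY : X ⊆ Y) (e : ℕ) :
    thr r A0 A1 X e ≤ thr r A0 A1 Y e := by
  by_cases h1 : r (insert e X) = r (X.erase e)
  · have h2 := h.sub (insert e X) (Y.erase e)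
    have e1 : insert e X ∪ Y.erase e = insert e Y := by
      ext a
      have := @hXY a
      simp only [mem_union, mem_insert, mem_erase]
      tauto
    have e2 : insert e X ∩ Y.erase e = X.erase e := by
      ext a
      have := @hXY a
      simp only [mem_inter, mem_insert, mem_erase]
      tauto
    have h3 := h.mono _ _ ((erase_subset e Y).trans (subset_insert e Y))
    rw [e1, e2] at h2
    rw [thr, thr, if_pos h1, if_pos (by omega)]
  · rw [thr, if_neg h1]
    exact le_thr h01 _ _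

theorem stp_mono (h : IsRk r) (h01 : A0 ≤ A1) (x : List Bool) :
    Monotone fun X => stp r m A0 A1 M b X x := by
  intro X Y hXY
  have := thr_mono h h01 hXY (ofB (x.take b))
  simp only [stp, mv]
  split_ifs with h1 h2 h3 h3
  · exact insert_subset_insert _ hXY
  · omega
  · exact ((erase_subset _ _).trans hXY).trans (subset_insert _ _)
  · exact erase_subset_erase _ hXY
  · exact hXY

theorem balance (h : IsRk r) (hq : 0 < q) (a1 : (A1 : ℝ) * (1 + v) = v * M)
    (a0 : (A0 : ℝ) * (q + v) = v * M) {Y : Finset ℕ} {e : ℕ} (he : e ∉ Y) :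
    wt r q v (insert e Y) * (M - thr r A0 A1 Y e) = wt r q v Y * thr r A0 A1 Y e := by
  have h1 := h.mono _ _ (subset_insert e Y)
  have h2 := h.ins Y e
  simp only [wt, thr, card_insert_of_notMem he, erase_eq_of_notMem he, div_eq_mul_inv, ← inv_pow]
  by_cases h3 : r (insert e Y) = r Y
  · rw [if_pos h3, h3]
    linear_combination (-(v ^ Y.card * q⁻¹ ^ r Y)) * a1
  · rw [if_neg h3, show r (insert e Y) = r Y + 1 by omega]
    have h4 : q * q⁻¹ = 1 := mul_inv_cancel₀ hq.ne'
    linear_combination (-(v ^ Y.card * q⁻¹ ^ r Y * q⁻¹)) * a0 +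
      (v ^ Y.card * q⁻¹ ^ r Y * A0) * h4

theorem sum_F (h : IsRk r) (hq : 0 < q) (a1 : (A1 : ℝ) * (1 + v) = v * M)
    (a0 : (A0 : ℝ) * (q + v) = v * M) (hm : m ≤ 2 ^ b) (hM : M ≤ 2 ^ B) (h0 : A0 ≤ M)
    (h1 : A1 ≤ M) (F : Finset ℕ → Finset ℕ → ℝ) :
    ∑ X ∈ (range m).powerset, wt r q v X * Ex (b + B) (fun x => F X (stp r m A0 A1 M b X x)) =
      ∑ X ∈ (range m).powerset, wt r q v X * F X X +
        (∑ e ∈ range m, ∑ Y ∈ ((range m).erase e).powerset, wt r q v Y * thr r A0 A1 Y e *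
          (F Y (insert e Y) + F (insert e Y) Y - F Y Y - F (insert e Y) (insert e Y))) /
            2 ^ (b + B) := by
  simp only [fun X => Ex_stp (r := r) hm hM h0 h1 X (F X), mul_add, sum_add_distrib,
    ← mul_div_assoc, ← sum_div]
  congr 2
  simp only [← sum_add_distrib, mul_sum]
  rw [sum_comm]
  refine sum_congr rfl fun e he => ?_
  conv_lhs => rw [← insert_erase he]
  rw [sum_powerset_insert (notMem_erase e _), ← sum_add_distrib]
  refine sum_congr rfl fun Y hY => ?_
  have hY' : e ∉ Y := fun h2 => notMem_erase e _ (mem_powerset.1 hY h2)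
  have e1 : thr r A0 A1 (insert e Y) e = thr r A0 A1 Y e := by
    simp only [thr, insert_idem, erase_insert hY', erase_eq_of_notMem hY']
  have e2 := balance h hq a1 a0 hY'
  simp only [e1, insert_idem, erase_insert hY', erase_eq_of_notMem hY']
  linear_combination (F (insert e Y) Y - F (insert e Y) (insert e Y)) * e2

theorem stp_rev (h : IsRk r) (hq : 0 < q) (a1 : (A1 : ℝ) * (1 + v) = v * M)
    (a0 : (A0 : ℝ) * (q + v) = v * M) (hm : m ≤ 2 ^ b) (hM : M ≤ 2 ^ B) (h0 : A0 ≤ M)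
    (h1 : A1 ≤ M) : Rev (range m).powerset (wt r q v) (b + B) (stp r m A0 A1 M b) := by
  intro F
  rw [sum_F h hq a1 a0 hm hM h0 h1 F, sum_F h hq a1 a0 hm hM h0 h1 fun X Y => F Y X]
  simp only [add_comm]

theorem wt_pos (hq : 0 < q) (hv : 0 < v) (X : Finset ℕ) : 0 < wt r q v X := by
  unfold wt
  positivity

theorem stp_dir (h : IsRk r) (hq : 0 < q) (hv : 0 < v) (a1 : (A1 : ℝ) * (1 + v) = v * M)
    (a0 : (A0 : ℝ) * (q + v) = v * M) (hm : m ≤ 2 ^ b) (hM : M ≤ 2 ^ B) (h01 : A0 ≤ A1)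
    (h1 : A1 ≤ M) (f : Finset ℕ → ℝ) :
    2 * A0 / 2 ^ (b + B) * ∑ e ∈ range m, ∑ A ∈ (range m).powerset,
        wt r q v A * (f (insert e A) - f A) ^ 2 ≤
      Dir (range m).powerset (wt r q v) (b + B) (stp r m A0 A1 M b) f := by
  rw [Dir, sum_F h hq a1 a0 hm hM (h01.trans h1) h1 fun X Y => (f X - f Y) ^ 2, div_mul_eq_mul_div]
  simp only [sub_self, ne_eq, OfNat.ofNat_ne_zero, not_false_eq_true, zero_pow, mul_zero,
    sum_const_zero, zero_add, sub_zero]
  rw [mul_sum]
  refine div_le_div_of_nonneg_right (sum_le_sum fun e he => ?_) (by positivity)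
  conv_lhs => rw [← insert_erase he]
  rw [sum_powerset_insert (notMem_erase e _)]
  simp only [insert_idem, sub_self, ne_eq, OfNat.ofNat_ne_zero, not_false_eq_true, zero_pow,
    mul_zero, sum_const_zero, add_zero, mul_sum]
  refine sum_le_sum fun Y _ => ?_
  have b1 : (A0 : ℝ) ≤ thr r A0 A1 Y e := by exact_mod_cast le_thr h01 Y e
  have b2 := mul_nonneg (wt_pos (r := r) hq hv Y).le (sq_nonneg (f (insert e Y) - f Y))
  nlinarith [mul_le_mul_of_nonneg_left b1 b2]

theorem wt_empty (h : IsRk r) : wt r q v ∅ = 1 := by simp [wt, h.empty]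

theorem Z_le (hq : 1 ≤ q) (hv : 0 ≤ v) (E : Finset ℕ) :
    ∑ X ∈ E.powerset, wt r q v X ≤ (1 + v) ^ E.card := by
  have h1 : (1 + v) ^ E.card = ∑ X ∈ E.powerset, v ^ X.card := by
    rw [← prod_const, prod_one_add]
    simp only [prod_const]
  rw [h1]
  exact sum_le_sum fun X _ => div_le_self (by positivity) (one_le_pow₀ hq)

theorem A_le (hq : 1 ≤ q) (hv : 0 < v) (a1 : (A1 : ℝ) * (1 + v) = v * M)
    (a0 : (A0 : ℝ) * (q + v) = v * M) : A0 ≤ A1 ∧ A1 ≤ M := by
  have z0 : (0 : ℝ) ≤ A0 := Nat.cast_nonneg _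
  have z1 : (0 : ℝ) ≤ M := Nat.cast_nonneg _
  have v1 : 0 < 1 + v := by linarith
  constructor
  · have : (A0 : ℝ) ≤ A1 := le_of_mul_le_mul_right (by nlinarith) v1
    exact_mod_cast this
  · have : (A1 : ℝ) ≤ M := le_of_mul_le_mul_right (by nlinarith) v1
    exact_mod_cast this

/-- mixing of monotone observables from the empty configuration -/
theorem mixC (h : IsRk r) (hq : 1 ≤ q) (hv : 0 < v) (a1 : (A1 : ℝ) * (1 + v) = v * M)
    (a0 : (A0 : ℝ) * (q + v) = v * M) {j : ℕ} (hj : j ≤ m) (hm : j ≤ 2 ^ b) (hM : M ≤ 2 ^ B)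
    {C γ : ℝ} (γ0 : 0 ≤ γ) (γ4 : γ ≤ 4) (hγ : γ * C ≤ 2 * A0 / 2 ^ (b + B)) (hP : PI m r q v C)
    {f : Finset ℕ → ℝ} (hf : Monotone f) (f0 : ∀ X ⊆ range j, 0 ≤ f X)
    (f1 : ∀ X ⊆ range j, f X ≤ 1) (T : ℕ) {n : ℕ} (hn : (b + B + 1) * T ≤ n) :
    (Ex n (fun x => f (rit (b + B + 1) (lz (stp r j A0 A1 M b)) T ∅ x)) -
      (∑ A ∈ (range j).powerset, wt r q v A * f A) / ∑ A ∈ (range j).powerset, wt r q v A) ^ 2 ≤
      (1 - γ / 4) ^ T * (1 + v) ^ j := by
  have hq0 : 0 < q := by linarith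
  obtain ⟨h01, h1⟩ := A_le hq hv a1 a0
  have key := mixM (Ω := (range j).powerset) (fun X _ => wt_pos (r := r) hq0 hv X)
    (stp_rev h hq0 a1 a0 hm hM (h01.trans h1) h1) (stp_mono h h01) γ4 (fun g hg g0 => by
      have b1 := hP j hj g hg g0
      have b2 := stp_dir h hq0 hv a1 a0 hm hM h01 h1 g
      have b3 : 0 ≤ ∑ e ∈ range j, ∑ A ∈ (range j).powerset,
          wt r q v A * (g (insert e A) - g A) ^ 2 :=
        sum_nonneg fun e _ => sum_nonneg fun A _ => mul_nonneg (wt_pos hq0 hv A).le (sq_nonneg _)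
      refine (mul_le_mul_of_nonneg_left b1 γ0).trans (le_trans ?_ b2)
      rw [← mul_assoc]
      exact mul_le_mul_of_nonneg_right hγ b3) hf (fun X hX => f0 X (mem_powerset.1 hX))
    (fun X hX => f1 X (mem_powerset.1 hX)) T hn (empty_mem_powerset _)
  have z := Z_le (r := r) hq hv.le (range j)
  rw [card_range] at z
  rw [wt_empty h, one_mul] at key
  exact key.trans (mul_le_mul_of_nonneg_left z (pow_nonneg (by linarith) _))

end Pool.Agent.Lib.GJ.H81
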