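import Pool.Agent.Lib.FL.B_PT
import Pool.Agent.Lib.GJ.Step81

/-! The Glauber product estimator is computed in polynomial time from the rank oracle. -/

namespace Pool.Agent.Lib.GJ.H88

open Pool.Agent.Lib.helper82 Pool.Agent.Lib.MP_b67cc8_lc Pool.Agent.FL.Mix28
open Pool.Agent.Lib.MP_dec383_lc (UN)
open Pool.Agent.Lib.FL.A80 Pool.Agent.Lib.FL.A80.PTc
open Pool.Agent.Lib.GJ.H81 (stp)

/-- the sample of stage `j` -/
def smp (ρ : Finset ℕ → ℕ) (A0 A1 M b B T j : ℕ) (x : List Bool) : Finset ℕ :=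
  rit (b + B + 1) (lz (stp ρ j A0 A1 M b)) T ∅ x

/-- the observable of stage `j` -/
def gg (ρ : Finset ℕ → ℕ) (A0 A1 M b B T j : ℕ) (x : List Bool) : Bool :=
  decide (ρ (insert j (smp ρ A0 A1 M b B T j x)) = ρ (smp ρ A0 A1 M b B T j x))

/-- the estimator (numerator, denominator) -/
def est (m : ℕ) (ρ : Finset ℕ → ℕ) (A0 A1 M b B T al be M' s : ℕ) (x : List Bool) : ℕ × ℕ :=
  (rit ((b + B + 1) * T * s)
    (pst (fun j x => al * s + be * cnt ((b + B + 1) * T) (gg ρ A0 A1 M b B T j) s x)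
      fun _ _ => M' * s) m (0, 1, 1) x).2

/-! ### The code -/

def cl (m : ℕ) (L : List ℕ) : List ℕ := (List.range m).filter fun i => decide (i ∈ L)

def insC (m e : ℕ) (L : List ℕ) : List ℕ :=
  (List.range m).filter fun i => decide (i = e) || decide (i ∈ L)

def eraC (m e : ℕ) (L : List ℕ) : List ℕ :=
  (List.range m).filter fun i => !decide (i = e) && decide (i ∈ L)

def mvC (m : ℕ) (O : List ℕ → ℕ) (j A0 A1 M : ℕ) (L : List ℕ) (e U : ℕ) : List ℕ :=
  bif decide (e < j) && decide (U < M) then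
    (bif decide (U < (if O (insC m e L) = O (eraC m e L) then A1 else A0)) then insC m e L
      else eraC m e L)
  else L

def stpC (m : ℕ) (O : List ℕ → ℕ) (j A0 A1 M b : ℕ) (L : List ℕ) (x : List Bool) : List ℕ :=
  mvC m O j A0 A1 M L (ofB (x.take b)) (ofB (x.drop b))

def smpC (m : ℕ) (O : List ℕ → ℕ) (A0 A1 M b B T j : ℕ) (x : List Bool) : List ℕ :=
  rit (b + B + 1) (lz (stpC m O j A0 A1 M b)) T [] x

def ggC (m : ℕ) (O : List ℕ → ℕ) (A0 A1 M b B T j : ℕ) (x : List Bool) : Bool :=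
  decide (O (insC m j (smpC m O A0 A1 M b B T j x)) = O (cl m (smpC m O A0 A1 M b B T j x)))

def uC (m : ℕ) (O : List ℕ → ℕ) (A0 A1 M b B T al be s j : ℕ) (x : List Bool) : ℕ :=
  al * s + be * cnt ((b + B + 1) * T) (ggC m O A0 A1 M b B T j) s x

def estC (m : ℕ) (O : List ℕ → ℕ) (A0 A1 M b B T al be M' s : ℕ) (x : List Bool) : ℕ × ℕ :=
  (rit ((b + B + 1) * T * s) (pst (uC m O A0 A1 M b B T al be s) fun _ _ => M' * s) m
    (0, 1, 1) x).2

section sim

variable {m : ℕ} {ρ : Finset ℕ → ℕ} {O : List ℕ → ℕ}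

def dec (m : ℕ) (L : List ℕ) : Finset ℕ := (cl m L).toFinset

theorem mem_dec {L : List ℕ} {i : ℕ} : i ∈ dec m L ↔ i < m ∧ i ∈ L := by simp [dec, cl]

theorem O_filter (hO : Orc m ρ O) (P : ℕ → Bool) :
    O ((List.range m).filter P) = ρ ((List.range m).filter P).toFinset :=
  hO _ fun _ he => List.mem_range.1 (List.mem_filter.1 he).1

theorem ins_eq {e : ℕ} (he : e < m) (L : List ℕ) :
    (insC m e L).toFinset = insert e (dec m L) := by
  ext i
  simp only [insC, List.mem_toFinset, List.mem_filter, List.mem_range, Bool.or_eq_true,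
    decide_eq_true_eq, Finset.mem_insert, mem_dec]
  constructor
  · rintro ⟨h1, h2 | h2⟩
    exacts [Or.inl h2, Or.inr ⟨h1, h2⟩]
  · rintro (rfl | ⟨h1, h2⟩)
    exacts [⟨he, Or.inl rfl⟩, ⟨h1, Or.inr h2⟩]

theorem era_eq (e : ℕ) (L : List ℕ) : (eraC m e L).toFinset = (dec m L).erase e := by
  ext i
  simp only [eraC, List.mem_toFinset, List.mem_filter, List.mem_range, Bool.and_eq_true,
    Bool.not_eq_true', decide_eq_false_iff_not, decide_eq_true_eq, Finset.mem_erase, mem_dec]
  tauto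

theorem dec_filter (P : ℕ → Bool) :
    dec m ((List.range m).filter P) = ((List.range m).filter P).toFinset := by
  ext i
  simp only [mem_dec, List.mem_toFinset, List.mem_filter, List.mem_range]
  tauto

theorem dec_step (hO : Orc m ρ O) {j : ℕ} (hj : j ≤ m) (A0 A1 M b : ℕ) (L : List ℕ)
    (x : List Bool) : dec m (stpC m O j A0 A1 M b L x) = stp ρ j A0 A1 M b (dec m L) x := by
  unfold stpC stp mvC H81.mv H81.thr
  generalize ofB (x.take b) = e
  generalize ofB (x.drop b) = U
  rw [Bool.cond_eq_ite, Bool.cond_eq_ite]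
  simp only [Bool.and_eq_true, decide_eq_true_eq]
  by_cases h : e < j ∧ U < M
  · have he : e < m := h.1.trans_le hj
    have e1 : O (insC m e L) = ρ (insert e (dec m L)) := by rw [← ins_eq he]; exact O_filter hO _
    have e2 : O (eraC m e L) = ρ ((dec m L).erase e) := by rw [← era_eq]; exact O_filter hO _
    rw [if_pos h, if_pos h, e1, e2]
    split_ifs
    all_goals first
      | exact (dec_filter _).trans (ins_eq he L)
      | exact (dec_filter _).trans (era_eq e L)
  · rw [if_neg h, if_neg h]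

theorem dec_smp (hO : Orc m ρ O) {j : ℕ} (hj : j ≤ m) (A0 A1 M b B T : ℕ) (x : List Bool) :
    dec m (smpC m O A0 A1 M b B T j x) = smp ρ A0 A1 M b B T j x := by
  unfold smpC smp
  rw [rit_sim _ (dec_step hO hj A0 A1 M b)]
  congr 1
  ext i
  simp [mem_dec]

theorem gg_eq (hO : Orc m ρ O) {j : ℕ} (hj : j < m) (A0 A1 M b B T : ℕ) :
    ggC m O A0 A1 M b B T j = gg ρ A0 A1 M b B T j := by
  funext x
  unfold ggC gg
  rw [← dec_smp hO hj.le, ← ins_eq hj]
  have e1 := O_filter hO fun i => decide (i = j) || decide (i ∈ smpC m O A0 A1 M b B T j x)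
  have e2 := O_filter hO fun i => decide (i ∈ smpC m O A0 A1 M b B T j x)
  exact decide_eq_decide.2 (by rw [insC, cl, e1, e2]; rfl)

theorem rit_pst_congr (K n : ℕ) {u u' v : ℕ → List Bool → ℕ} (h : ∀ i < n, u i = u' i) (t : ℕ) :
    ∀ (j a b : ℕ) (r : List Bool), j + t ≤ n →
      rit K (pst u v) t (j, a, b) r = rit K (pst u' v) t (j, a, b) r := by
  induction t with
  | zero => intro j a b r _; rfl
  | succ t ih =>
    intro j a b r hj
    have := ih (j + 1) (a * u' j (r.take K)) (b * v j (r.take K)) (r.drop K) (by omega)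
    simp only [rit, Function.iterate_succ_apply, rst, pst] at this ⊢
    rw [h j (by omega), this]

theorem estC_eq (hO : Orc m ρ O) (A0 A1 M b B T al be M' s : ℕ) (x : List Bool) :
    estC m O A0 A1 M b B T al be M' s x = est m ρ A0 A1 M b B T al be M' s x := by
  unfold estC est
  rw [rit_pst_congr _ m (fun i hi => ?_) m 0 1 1 x (by omega)]
  funext y
  rw [uC, gg_eq hO hi]

end sim

section pt
open PT

variable {α : Type} [Enc α] {m j e U A0 A1 M b B T al be M' s : α → ℕ} {L : α → List ℕ}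
  {O : α → List ℕ → ℕ} {x : α → List Bool}

theorem cl_pt (hm : UN m) (hL : PT L) : PT fun a => cl (m a) (L a) :=
  filter hm.range (mem snd' (PT.comp hL fst'))

theorem ins_pt (hm : UN m) (he : PT e) (hL : PT L) : PT fun a => insC (m a) (e a) (L a) :=
  filter hm.range (or (eq snd' (PT.comp he fst')) (mem snd' (PT.comp hL fst')))

theorem era_pt (hm : UN m) (he : PT e) (hL : PT L) : PT fun a => eraC (m a) (e a) (L a) :=
  filter hm.range (and (not (eq snd' (PT.comp he fst'))) (mem snd' (PT.comp hL fst')))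

theorem mv_pt (hm : UN m) (hO : PT fun p : α × List ℕ => O p.1 p.2) (hj : PT j) (h0 : PT A0)
    (h1 : PT A1) (hM : PT M) (hL : PT L) (he : PT e) (hU : PT U) :
    PT fun a => mvC (m a) (O a) (j a) (A0 a) (A1 a) (M a) (L a) (e a) (U a) :=
  cond (and (lt he hj) (lt hU hM))
    (cond (lt hU (iteEq (app2 hO PT.id (ins_pt hm he hL)) (app2 hO PT.id (era_pt hm he hL)) h1 h0))
      (ins_pt hm he hL) (era_pt hm he hL)) hL

theorem stp_pt (hm : UN m) (hO : PT fun p : α × List ℕ => O p.1 p.2) (hj : PT j) (h0 : PT A0)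
    (h1 : PT A1) (hM : PT M) (hb : UN b) (hL : PT L) (hx : PT x) :
    PT fun a => stpC (m a) (O a) (j a) (A0 a) (A1 a) (M a) (b a) (L a) (x a) :=
  mv_pt hm hO hj h0 h1 hM hL (ofB_pt (fst (un_split hb hx))) (ofB_pt (snd (un_split hb hx)))

theorem smp_pt (hm : UN m) (hO : PT fun p : α × List ℕ => O p.1 p.2) (h0 : PT A0) (h1 : PT A1)
    (hM : PT M) (hb : UN b) (hB : UN B) (hT : UN T) (hj : PT j) (hx : PT x) :
    PT fun a => smpC (m a) (O a) (A0 a) (A1 a) (M a) (b a) (B a) (T a) (j a) (x a) := by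
  refine un_rit ((hb.add hB).add (UN.const 1)) hT (const []) hx
    (iteEq (headD (snd snd') false) (const true) (stp_pt (hm.comp fst')
      (O := fun p : α × List ℕ × List Bool => O p.1) (app2 hO (fst fst') snd')
      (PT.comp hj fst') (PT.comp h0 fst') (PT.comp h1 fst') (PT.comp hM fst') (hb.comp fst')
      (fst snd') (tail (snd snd'))) (fst snd'))
    hm.range.sz_bd (fun a _ L => sz L ≤ sz (List.range (m a)))
    (fun a => Nat.zero_le _) (fun a _ L x h => ?_) fun _ _ _ _ h => h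
  unfold lz stpC mvC
  split_ifs
  all_goals first
    | exact h
    | (rw [Bool.cond_eq_ite, Bool.cond_eq_ite]
       split_ifs
       exacts [sz_filter_le _ _, sz_filter_le _ _, h])

theorem gg_pt (hm : UN m) (hO : PT fun p : α × List ℕ => O p.1 p.2) (h0 : PT A0) (h1 : PT A1)
    (hM : PT M) (hb : UN b) (hB : UN B) (hT : UN T) (hj : PT j) (hx : PT x) :
    PT fun a => ggC (m a) (O a) (A0 a) (A1 a) (M a) (b a) (B a) (T a) (j a) (x a) :=
  eq (app2 hO PT.id (ins_pt hm hj (smp_pt hm hO h0 h1 hM hb hB hT hj hx)))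
    (app2 hO PT.id (cl_pt hm (smp_pt hm hO h0 h1 hM hb hB hT hj hx)))

theorem toNat_pt {c : α → Bool} (hc : PT c) : PT fun a => (c a).toNat :=
  (cond hc (const 1) (const 0)).congr fun a => by cases c a <;> rfl

theorem cnt_pt {K : α → ℕ} {g : α → List Bool → Bool} (hK : UN K) (hs : UN s)
    (hg : PT fun p : α × List Bool => g p.1 p.2) (hx : PT x) :
    PT fun a => cnt (K a) (g a) (s a) (x a) :=
  un_rit hK hs (h := fun a c y => c + (g a y).toNat) (const 0) hx
    (add (fst snd') (toNat_pt (app2 hg fst' (snd snd')))) (un_bd hs) (fun _ i c => c ≤ i)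
    (fun _ => le_rfl) (fun a i c y h => by have := Bool.toNat_le (g a y); omega)
    fun a i c hi h => (sz_nat_le_self c).trans (h.trans hi)

theorem cnt_le (K : ℕ) (g : List Bool → Bool) (s : ℕ) (x : List Bool) : cnt K g s x ≤ s := by
  have : ∀ (s c : ℕ) (x : List Bool), rit K (fun c y => c + (g y).toNat) s c x ≤ c + s := fun s => by
    induction s with
    | zero => intro c x; exact le_rfl
    | succ s ih =>
      intro c x
      have h1 := ih (c + (g (x.take K)).toNat) (x.drop K)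
      have h2 := Bool.toNat_le (g (x.take K))
      simp only [rit, Function.iterate_succ_apply, rst] at h1 ⊢
      omega
  exact (this s 0 x).trans_eq (Nat.zero_add s)

theorem u_pt (hm : UN m) (hO : PT fun p : α × List ℕ => O p.1 p.2) (h0 : PT A0) (h1 : PT A1)
    (hM : PT M) (hb : UN b) (hB : UN B) (hT : UN T) (hal : PT al) (hbe : PT be) (hs : UN s)
    (hj : PT j) (hx : PT x) : PT fun a =>
      uC (m a) (O a) (A0 a) (A1 a) (M a) (b a) (B a) (T a) (al a) (be a) (s a) (j a) (x a) :=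
  add (mul hal hs.pt) (mul hbe (cnt_pt (((hb.add hB).add (UN.const 1)).mul hT) hs
    (g := fun a => ggC (m a) (O a) (A0 a) (A1 a) (M a) (b a) (B a) (T a) (j a))
    (gg_pt (hm.comp fst') (O := fun p : α × List Bool => O p.1) (app2 hO (fst fst') snd')
      (PT.comp h0 fst') (PT.comp h1 fst') (PT.comp hM fst') (hb.comp fst') (hB.comp fst')
      (hT.comp fst') (PT.comp hj fst') snd') hx))

theorem est_ptC (hm : UN m) (hO : PT fun p : α × List ℕ => O p.1 p.2) (h0 : PT A0) (h1 : PT A1)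
    (hM : PT M) (hb : UN b) (hB : UN B) (hT : UN T) (hal : PT al) (hbe : PT be) (hM' : PT M')
    (hs : UN s) (hx : PT x) : PT fun a =>
      estC (m a) (O a) (A0 a) (A1 a) (M a) (b a) (B a) (T a) (al a) (be a) (M' a) (s a) (x a) := by
  have hu := u_pt (α := α × (ℕ × ℕ × ℕ) × List Bool) (O := fun p => O p.1)
    (hm.comp fst') (app2 hO (fst fst') snd') (PT.comp h0 fst') (PT.comp h1 fst') (PT.comp hM fst')
    (hb.comp fst') (hB.comp fst') (hT.comp fst') (PT.comp hal fst') (PT.comp hbe fst')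
    (hs.comp fst') (fst (fst snd')) (snd snd')
  have hD : PT fun a => (al a + be a + M' a) * s a := mul (add (add hal hbe) hM') hs.pt
  refine snd (un_rit ((((hb.add hB).add (UN.const 1)).mul hT).mul hs) hm
    (h := fun a => pst (uC (m a) (O a) (A0 a) (A1 a) (M a) (b a) (B a) (T a) (al a) (be a) (s a))
      fun _ _ => M' a * s a) (const _) hx
    (pair (succ (fst (fst snd'))) (pair (mul (fst (snd (fst snd'))) hu)
      (mul (snd (snd (fst snd'))) (PT.comp (mul hM' hs.pt) fst'))))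
    ((((Bd.const 2).mul (un_bd hm)).add (Bd.const 5)).add
      ((Bd.const 3).mul ((un_bd hm).mul hD.sz_bd)))
    (fun a i c => c.1 = i ∧ sz c.2.1 ≤ 1 + i * sz ((al a + be a + M' a) * s a) ∧
      sz c.2.2 ≤ 1 + i * sz ((al a + be a + M' a) * s a))
    (fun a => ⟨rfl, by simpa using sz_nat_le_self 1, by simpa using sz_nat_le_self 1⟩)
    (fun a i c y h => ?_) fun a i c hi h => ?_)
  · obtain ⟨c, p, q⟩ := c
    obtain ⟨rfl, g1, g2⟩ := h
    simp only at g1 g2
    have a0 := Nat.mul_le_mul_left (be a) (cnt_le ((b a + B a + 1) * T a)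
      (ggC (m a) (O a) (A0 a) (A1 a) (M a) (b a) (B a) (T a) c) (s a) y)
    have a1 : sz (uC (m a) (O a) (A0 a) (A1 a) (M a) (b a) (B a) (T a) (al a) (be a) (s a) c y) ≤
        sz ((al a + be a + M' a) * s a) := sz_nat_mono (by rw [uC, add_mul _ (M' a), add_mul (al a)]; omega)
    have a2 : sz (M' a * s a) ≤ sz ((al a + be a + M' a) * s a) :=
      sz_nat_mono (by rw [add_mul]; omega)
    have a3 := PTc.sz_mul_le p
      (uC (m a) (O a) (A0 a) (A1 a) (M a) (b a) (B a) (T a) (al a) (be a) (s a) c y)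
    have a4 := PTc.sz_mul_le q (M' a * s a)
    refine ⟨rfl, ?_, ?_⟩ <;> simp only [pst] <;> rw [add_mul c 1, one_mul] <;> omega
  · obtain ⟨c, p, q⟩ := c
    obtain ⟨rfl, g1, g2⟩ := h
    simp only at g1 g2 hi
    have a1 := sz_nat_le_self c
    have b1 := Nat.mul_le_mul_right (sz ((al a + be a + M' a) * s a)) hi
    rw [sz_prod, sz_prod]
    omega

end pt

/-- the estimator is computed in polynomial time from the oracle -/
theorem est_pt {α : Type} [Enc α] {m A0 A1 M b B T al be M' s : α → ℕ} {O : α → List ℕ → ℕ}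
    (hm : UN m) (hO : PT fun p : α × List ℕ => O p.1 p.2) (h0 : PT A0) (h1 : PT A1)
    (hM : PT M) (hb : UN b) (hB : UN B) (hT : UN T) (hal : PT al) (hbe : PT be) (hM' : PT M')
    (hs : UN s) : ∃ A : α → List Bool → ℕ × ℕ, (PT fun p : α × List Bool => A p.1 p.2) ∧
      ∀ a ρ, Orc (m a) ρ (O a) → ∀ x, A a x =
        est (m a) ρ (A0 a) (A1 a) (M a) (b a) (B a) (T a) (al a) (be a) (M' a) (s a) x :=
  ⟨fun a => estC (m a) (O a) (A0 a) (A1 a) (M a) (b a) (B a) (T a) (al a) (be a) (M' a) (s a),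
    est_ptC (α := α × List Bool) (O := fun p => O p.1) (hm.comp PT.fst')
      (app2 hO (PT.fst PT.fst') PT.snd') (PT.comp h0 PT.fst') (PT.comp h1 PT.fst')
      (PT.comp hM PT.fst') (hb.comp PT.fst') (hB.comp PT.fst') (hT.comp PT.fst')
      (PT.comp hal PT.fst') (PT.comp hbe PT.fst') (PT.comp hM' PT.fst') (hs.comp PT.fst') PT.snd',
    fun _ _ hO x => estC_eq hO _ _ _ _ _ _ _ _ _ _ x⟩

end Pool.Agent.Lib.GJ.H88
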