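import Pool.Agent.Lib.GJ.Smp79
import Pool.Agent.Lib.GJ.Est65
import Pool.Agent.Lib.GJ.PT88

/-! The algorithmic half, from the polynomial time bound for the estimator. -/

namespace Pool.Agent.Lib.GJ.H79

open Finset Pool.Agent.Lib.helper82 Pool.Agent.Lib.MP_b67cc8_lc Pool.Agent.FL.Mix28
open Pool.Agent.Lib.FL Pool.Agent.Lib.MP_dec383_lc

/-- the estimator is computed in polynomial time -/
def St_P : Prop := ∀ (α : Type) [Enc α] (m b B T s A0 A1 M al be M' : α → ℕ)
  (O : α → List ℕ → ℕ), UN m → UN b → UN B → UN T → UN s → PT A0 → PT A1 → PT M → PT al → PT be →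
  PT M' → (PT fun p : α × List ℕ => O p.1 p.2) → ∃ A : α → List Bool → ℕ × ℕ,
    (PT fun p : α × List Bool => A p.1 p.2) ∧ ∀ a ρ, A80.Orc (m a) ρ (O a) → ∀ x,
      A a x = H65.estZ ((b a + B a + 1) * T a) (m a) (al a) (be a) (M' a) (s a) (fun j x =>
        decide (ρ (insert j (rit (b a + B a + 1) (lz (H81.stp ρ j (A0 a) (A1 a) (M a) (b a)))
          (T a) ∅ x)) = ρ (rit (b a + B a + 1) (lz (H81.stp ρ j (A0 a) (A1 a) (M a) (b a)))
            (T a) ∅ x))) x

theorem alg_of (HP : St_P) : St_ALG := by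
  intro x y hx hy hq c α _ m k ρ ok hF hk hPI
  obtain ⟨a, d, d0, ex⟩ := H5.exists_frac (sub_nonneg.2 hx.le)
  obtain ⟨p, t, t0, ey⟩ := H5.exists_frac (sub_nonneg.2 hy.le)
  have a0 : 0 < a := Nat.pos_of_ne_zero fun h => by rw [h] at ex; simp at ex; linarith
  have p0 : 0 < p := Nat.pos_of_ne_zero fun h => by rw [h] at ey; simp at ey; linarith
  have hle : d * t ≤ a * p := by
    rw [ex, ey, div_mul_div_comm, le_div_iff₀ (by positivity), one_mul] at hq
    exact_mod_cast hq
  obtain ⟨be, hbe⟩ : ∃ be, a * p = d * t + be := ⟨_, (Nat.add_sub_cancel' hle).symm⟩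
  have ex' : (x : ℝ) - 1 = a / d := by simpa using congrArg (Rat.cast : ℚ → ℝ) ex
  have ey' : (y : ℝ) - 1 = p / t := by simpa using congrArg (Rat.cast : ℚ → ℝ) ey
  have hq' : (1 : ℝ) ≤ (x - 1) * (y - 1) := by exact_mod_cast hq
  have aR : (0 : ℝ) < a := by exact_mod_cast a0
  have dR : (0 : ℝ) < d := by exact_mod_cast d0
  have pR : (0 : ℝ) < p := by exact_mod_cast p0
  have tR : (0 : ℝ) < t := by exact_mod_cast t0
  have v0 : (0 : ℝ) < y - 1 := by rw [ey']; positivity
  obtain ⟨D, hD⟩ := exists_nat_ge (max (max c y) (max 64 (2 ^ ((t + p) * (a + d)))))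
  simp only [max_le_iff] at hD
  obtain ⟨⟨D1, D2⟩, D3, D4⟩ := hD
  have D3' : 64 ≤ D := by exact_mod_cast D3
  have D4' : 2 ^ ((t + p) * (a + d)) ≤ D := by exact_mod_cast D4
  obtain ⟨r, hr, hr'⟩ := hF.rk
  obtain ⟨hm, O, hO, hF⟩ := hF
  have hN : UN fun z => m z + k z + D := (hm.add hk).add (UN.const D)
  obtain ⟨A, hA, hA'⟩ := HP α m _ (fun _ => (t + p) * (a + d)) _ _ (fun _ => d * (t + p))
    (fun _ => p * (a + d)) (fun _ => (t + p) * (a + d)) (fun _ => t * (a + d)) (fun _ => be)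
    (fun _ => t * a) O hm (A80.PTc.un_size hN) (UN.const _) (hN.pow 11) (hN.pow 6) (PT.const _)
    (PT.const _) (PT.const _) (PT.const _) (PT.const _) (PT.const _) hO
  have key : H5.MS k ok fun z => A80.tut (m z) (ρ z) x y / (x - 1) ^ ρ z (range (m z)) := by
    refine ⟨A, _, hA, (((((A80.PTc.un_size hN).add (UN.const ((t + p) * (a + d)))).add
      (UN.const 1)).mul (hN.pow 11)).mul (hN.pow 6)).mul hm, fun z hz k0 l hl => ?_⟩
    obtain ⟨h1, h2⟩ := hF z hz
    have e : ((A80.tut (m z) (ρ z) x y / (x - 1) ^ ρ z (range (m z)) : ℚ) : ℝ) =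
        H65.Zf (ρ z) ((x - 1) * (y - 1)) (y - 1) (m z) := by
      have : (x : ℝ) - 1 ≠ 0 := by rw [ex']; positivity
      rw [Rat.cast_div, H65.tut_eq h1 hx hy]
      push_cast
      field_simp
    simp only [hA' z _ h2, e]
    generalize hNe : m z + k z + D = N at hl ⊢
    have n1 : (D : ℝ) ≤ N := by exact_mod_cast (show D ≤ N by omega)
    have n2 : (m z : ℝ) + 1 ≤ N := by exact_mod_cast (show m z + 1 ≤ N by omega)
    have n3 : (k z : ℝ) ≤ N := by exact_mod_cast (show k z ≤ N by omega)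
    have n0 : (0 : ℝ) < N := by linarith
    have n4 : (k z : ℝ) ^ 2 ≤ N ^ 2 := pow_le_pow_left₀ (by positivity) n3 2
    have n5 : (y : ℝ) - 1 ≤ N := by linarith
    refine H65.est h1 hq' v0 _ (by positivity) (by have : 0 < N := by omega
                                                   positivity) k0 ?_ ?_ (δ := 1 / (N : ℝ) ^ 5)
      (by positivity) (fun j hj => ?_) ?_ ?_ hl
    · rw [ex', ey']
      push_cast
      field_simp
    · have : (be : ℝ) = a * p - d * t := by
        have : (a * p : ℝ) = d * t + be := by exact_mod_cast hbe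
        linarith
      rw [ex', ey', this]
      push_cast
      field_simp
    · have := smp_bd h1 hq' v0 (A0 := d * (t + p)) (A1 := p * (a + d)) (M := (t + p) * (a + d))
        (N := N) (j := j) (by rw [ey']; push_cast; field_simp)
        (by rw [ex', ey']; push_cast; field_simp) (by positivity) hj.le (by omega) (by omega)
        (by omega) (D1.trans n1) (by linarith) (hPI z hz) (H65.sp_mono h1 j)
        (H65.sp_nonneg _ j) (H65.sp_le_one _ j)
      refine le_trans (le_of_eq ?_) this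
      congr 2
      refine Ex_congr fun w _ => ?_
      unfold H65.sp
      split_ifs with h <;> simp [h]
    · push_cast
      calc 16 * ((y : ℝ) - 1) ^ 2 * m z * k z ^ 2 ≤ (N : ℝ) * N ^ 2 * N * N ^ 2 := by
            gcongr <;> linarith
        _ = (N : ℝ) ^ 6 := by ring
    · rw [mul_one_div, div_le_one (by positivity)]
      calc 64 * ((y : ℝ) - 1) * (m z + 1) * k z ^ 2 ≤ (N : ℝ) * N * N * N ^ 2 := by
            gcongr
            linarith
        _ = (N : ℝ) ^ 5 := by ring
  refine key.smul (p := fun z => a ^ r z) (q := fun z => d ^ r z) (H5.ptPow _ hr) (H5.ptPow _ hr)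
    (fun _ _ => by positivity) fun z hz => ?_
  have : x - 1 ≠ 0 := sub_ne_zero.2 hx.ne'
  rw [hr' z hz, Nat.cast_pow, Nat.cast_pow, ← div_pow, ← ex]
  field_simp

theorem st_P : St_P := fun _ _ _ _ _ _ _ _ _ _ _ _ _ _ hm hb hB hT hs h0 h1 hM hal hbe hM' hO =>
  H88.est_pt hm hO h0 h1 hM hb hB hT hal hbe hM' hs

theorem st_ALG : St_ALG := alg_of st_P

end Pool.Agent.Lib.GJ.H79
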