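import Mathlib

/-! Poincare inequality for increasing functions, from the reverse Russo inequality. -/

noncomputable section

namespace Pool.Agent.Lib.GJ.H55

open Finset

variable {ι : Type} [DecidableEq ι]

/-- weighted sum over the configurations `B ∪ X`, `X ⊆ E` -/
def S (v : ℝ) (ρ : Finset ι → ℝ) (E B : Finset ι) (g : Finset ι → ℝ) : ℝ :=
  ∑ X ∈ E.powerset, v ^ X.card * ρ (B ∪ X) * g (B ∪ X)

/-- discrete derivative -/
def D (e : ι) (f : Finset ι → ℝ) : Finset ι → ℝ := fun Y => f (insert e Y) - f Y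

/-- unnormalised variance -/
def Vr (v : ℝ) (ρ : Finset ι → ℝ) (E B : Finset ι) (f : Finset ι → ℝ) : ℝ :=
  S v ρ E B (fun Y => f Y ^ 2) - S v ρ E B f ^ 2 / S v ρ E B fun _ => 1

/-- unnormalised Dirichlet form -/
def Dr (v : ℝ) (ρ : Finset ι → ℝ) (E B : Finset ι) (f : Finset ι → ℝ) : ℝ :=
  ∑ e ∈ E, S v ρ (E.erase e) B fun Y => D e f Y ^ 2

variable {v : ℝ} {ρ : Finset ι → ℝ}

theorem S_empty (B : Finset ι) (g : Finset ι → ℝ) : S v ρ ∅ B g = ρ B * g B := by simp [S]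

theorem S_insert {e : ι} {E : Finset ι} (he : e ∉ E) (B : Finset ι) (g : Finset ι → ℝ) :
    S v ρ (insert e E) B g = S v ρ E B g + v * S v ρ E (insert e B) g := by
  unfold S
  rw [sum_powerset_insert he, mul_sum]
  congr 1
  refine sum_congr rfl fun X hX => ?_
  have h : e ∉ X := fun h => he (mem_powerset.1 hX h)
  rw [card_insert_of_notMem h, union_insert, insert_union]
  ring

theorem S_base (e : ι) (E B : Finset ι) (g θ : Finset ι → ℝ) (h : ∀ Y, ρ (insert e Y) = ρ Y * θ Y) :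
    S v ρ E (insert e B) g = S v ρ E B fun Y => θ Y * g (insert e Y) := by
  unfold S
  refine sum_congr rfl fun X _ => ?_
  rw [insert_union, h]
  ring

theorem S_lin (E B : Finset ι) (a b : ℝ) (g h : Finset ι → ℝ) :
    S v ρ E B (fun Y => a * g Y + b * h Y) = a * S v ρ E B g + b * S v ρ E B h := by
  unfold S
  rw [mul_sum, mul_sum, ← sum_add_distrib]
  exact sum_congr rfl fun X _ => by ring

theorem S_mono (hv : 0 ≤ v) (hρ : ∀ Y, 0 < ρ Y) (E B : Finset ι) {g h : Finset ι → ℝ}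
    (hgh : ∀ Y, g Y ≤ h Y) : S v ρ E B g ≤ S v ρ E B h :=
  sum_le_sum fun _ _ => mul_le_mul_of_nonneg_left (hgh _) (mul_nonneg (pow_nonneg hv _) (hρ _).le)

theorem S_nonneg (hv : 0 ≤ v) (hρ : ∀ Y, 0 < ρ Y) (E B : Finset ι) {g : Finset ι → ℝ}
    (hg : ∀ Y, 0 ≤ g Y) : 0 ≤ S v ρ E B g :=
  sum_nonneg fun _ _ => mul_nonneg (mul_nonneg (pow_nonneg hv _) (hρ _).le) (hg _)

theorem S_pos (hv : 0 ≤ v) (hρ : ∀ Y, 0 < ρ Y) (E B : Finset ι) : 0 < S v ρ E B fun _ => 1 := by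
  refine sum_pos' (fun _ _ => mul_nonneg (mul_nonneg (pow_nonneg hv _) (hρ _).le) zero_le_one)
    ⟨∅, empty_mem_powerset _, ?_⟩
  simpa using hρ B

theorem S_erase_le (hv : 0 ≤ v) (hρ : ∀ Y, 0 < ρ Y) (E B : Finset ι) (e : ι) :
    S v ρ (E.erase e) B (fun _ => 1) ≤ S v ρ E B fun _ => 1 :=
  sum_le_sum_of_subset_of_nonneg (powerset_mono.2 (erase_subset _ _))
    fun _ _ _ => mul_nonneg (mul_nonneg (pow_nonneg hv _) (hρ _).le) zero_le_one

theorem S_cs (hv : 0 ≤ v) (hρ : ∀ Y, 0 < ρ Y) (E B : Finset ι) (g : Finset ι → ℝ) :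
    S v ρ E B g ^ 2 ≤ S v ρ E B (fun _ => 1) * S v ρ E B fun Y => g Y ^ 2 := by
  have hZ := S_pos hv hρ E B
  set Z := S v ρ E B fun _ => 1
  set a := S v ρ E B g
  have h := S_nonneg hv hρ E B (g := fun Y => (Z * g Y - a) ^ 2) fun _ => sq_nonneg _
  have e : (fun Y => (Z * g Y - a) ^ 2) =
      fun Y => Z ^ 2 * g Y ^ 2 + 1 * (-(2 * Z * a) * g Y + a ^ 2 * 1) := by
    funext Y
    ring
  rw [e, S_lin, S_lin] at h
  nlinarith

theorem Dr_insert {e : ι} {E : Finset ι} (he : e ∉ E) (B : Finset ι) (f : Finset ι → ℝ) :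
    Dr v ρ (insert e E) B f =
      S v ρ E B (fun Y => D e f Y ^ 2) + (Dr v ρ E B f + v * Dr v ρ E (insert e B) f) := by
  unfold Dr
  rw [sum_insert he, erase_insert he, mul_sum, ← sum_add_distrib]
  congr 1
  refine sum_congr rfl fun g hg => ?_
  have h : e ≠ g := fun h => he (h ▸ hg)
  rw [erase_insert_of_ne h, S_insert fun h' => he (mem_of_mem_erase h')]

theorem Dr_nonneg (hv : 0 ≤ v) (hρ : ∀ Y, 0 < ρ Y) (E B : Finset ι) (f : Finset ι → ℝ) :
    0 ≤ Dr v ρ E B f := sum_nonneg fun _ _ => S_nonneg hv hρ _ _ fun _ => sq_nonneg _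

/-- the hypotheses: weights of random cluster type and the reverse Russo inequality -/
structure Hyp (v s K : ℝ) (ρ : Finset ι → ℝ) (d : ι → Finset ι → ℝ) : Prop where
  v0 : 0 ≤ v
  s0 : 0 ≤ s
  s1 : s ≤ 1
  K0 : 0 ≤ K
  pos : ∀ Y, 0 < ρ Y
  d0 : ∀ e Y, 0 ≤ d e Y
  ins : ∀ e Y, ρ (insert e Y) = ρ Y * ((1 + s * d e Y) / (1 + s))
  fkg : ∀ (E B : Finset ι) (e : ι) (f : Finset ι → ℝ), Monotone f →
    0 ≤ S v ρ E B fun Y => d e Y * (f Y - S v ρ E B f / S v ρ E B fun _ => 1)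
  rr : ∀ (E B : Finset ι) (e : ι) (f : Finset ι → ℝ), Monotone f →
    S v ρ E B (fun Y => d e Y * (f Y - S v ρ E B f / S v ρ E B fun _ => 1)) ≤
      K * ∑ g ∈ E, S v ρ (E.erase g) B (D g f)

theorem gap {s K : ℝ} {d : ι → Finset ι → ℝ} (H : Hyp v s K ρ d) (E B : Finset ι) (e : ι)
    {f : Finset ι → ℝ} (hf : Monotone f) :
    ∃ a b : ℝ, S v ρ E (insert e B) f / S v ρ E (insert e B) (fun _ => 1) -
        S v ρ E B f / S v ρ E B (fun _ => 1) = a + b ∧
      a ^ 2 * S v ρ E (insert e B) (fun _ => 1) ≤ K ^ 2 * E.card * Dr v ρ E (insert e B) f ∧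
      b ^ 2 * S v ρ E B (fun _ => 1) ≤ S v ρ E B fun Y => D e f Y ^ 2 := by
  have hZ0 := S_pos H.v0 H.pos E B
  have hZ1 := S_pos H.v0 H.pos E (insert e B)
  have hq : 0 < 1 + s := by linarith [H.s0]
  have hf1 : Monotone fun Y => f (insert e Y) := fun _ _ h => hf (insert_subset_insert e h)
  have h0 := H.fkg E B e _ hf1
  have h1 := H.rr E B e _ hf1
  set Z0 := S v ρ E B fun _ => 1 with hZ0d
  set Z1 := S v ρ E (insert e B) fun _ => 1 with hZ1d
  set m := S v ρ E B (fun Y => f (insert e Y)) / Z0 with hm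
  set c := S v ρ E B fun Y => d e Y * (f (insert e Y) - m) with hc
  have h2 : S v ρ E (insert e B) f - m * Z1 = s / (1 + s) * c := by
    have e1 := S_lin (v := v) (ρ := ρ) E (insert e B) 1 (-m) f fun _ => 1
    rw [S_base e E B _ _ (H.ins e)] at e1
    have e2 : (fun Y => (1 + s * d e Y) / (1 + s) * (1 * f (insert e Y) + -m * 1)) =
        fun Y => s / (1 + s) * (d e Y * (f (insert e Y) - m)) +
          1 / (1 + s) * (1 * f (insert e Y) + -m * 1) := by
      funext Y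
      field_simp
      ring
    rw [e2, S_lin, S_lin, ← hc, ← hZ0d, ← hZ1d] at e1
    have e3 : m * Z0 = S v ρ E B fun Y => f (insert e Y) := div_mul_cancel₀ _ hZ0.ne'
    linear_combination -e1 - 1 / (1 + s) * e3
  have h3 : S v ρ E B (D e f) = S v ρ E B (fun Y => f (insert e Y)) - S v ρ E B f := by
    have e1 := S_lin (v := v) (ρ := ρ) E B 1 (-1) (fun Y => f (insert e Y)) f
    have e2 : (fun Y => 1 * f (insert e Y) + -1 * f Y) = D e f := by
      funext Y
      unfold D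
      ring
    rw [e2] at e1
    linarith
  refine ⟨s / (1 + s) * c / Z1, S v ρ E B (D e f) / Z0, ?_, ?_, ?_⟩
  · rw [← h2, h3, hm]
    field_simp
    ring
  · set T := ∑ g ∈ E, S v ρ (E.erase g) (insert e B) (D g f) with hT
    have h4 : ∑ g ∈ E, S v ρ (E.erase g) B (D g fun Y => f (insert e Y)) ≤ (1 + s) * T := by
      rw [hT, mul_sum]
      refine sum_le_sum fun g _ => ?_
      have e1 := S_lin (v := v) (ρ := ρ) (E.erase g) B (1 + s) 0
        (fun Y => (1 + s * d e Y) / (1 + s) * D g f (insert e Y)) fun _ => 1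
      rw [S_base e _ B _ _ (H.ins e)]
      simp only [zero_mul, add_zero] at e1
      rw [← e1]
      refine S_mono H.v0 H.pos _ _ fun Y => ?_
      have k1 : 0 ≤ D g f (insert e Y) := sub_nonneg.2 (hf (subset_insert _ _))
      have k2 : D g (fun Y => f (insert e Y)) Y = D g f (insert e Y) := by
        unfold D
        rw [Finset.insert_comm]
      have k3 := mul_nonneg (mul_nonneg H.s0 (H.d0 e Y)) k1
      rw [k2, ← mul_assoc, mul_div_cancel₀ _ hq.ne']
      linarith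
    have h5 : s / (1 + s) * c ≤ K * T := by
      have k1 : c ≤ K * ((1 + s) * T) := h1.trans (mul_le_mul_of_nonneg_left h4 H.K0)
      rw [div_mul_eq_mul_div, div_le_iff₀ hq]
      nlinarith [H.s0, H.s1]
    have h6 : 0 ≤ s / (1 + s) * c := mul_nonneg (div_nonneg H.s0 hq.le) h0
    have h7 : T ^ 2 ≤ E.card * (Z1 * Dr v ρ E (insert e B) f) := by
      refine sq_sum_le_card_mul_sum_sq.trans (mul_le_mul_of_nonneg_left ?_ (Nat.cast_nonneg _))
      unfold Dr
      rw [mul_sum]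
      refine sum_le_sum fun g _ => (S_cs H.v0 H.pos _ _ _).trans ?_
      exact mul_le_mul_of_nonneg_right (S_erase_le H.v0 H.pos _ _ _)
        (S_nonneg H.v0 H.pos _ _ fun _ => sq_nonneg _)
    have h8 : (s / (1 + s) * c) ^ 2 ≤ (K * T) ^ 2 := pow_le_pow_left₀ h6 h5 2
    have h9 : (s / (1 + s) * c / Z1) ^ 2 * Z1 = (s / (1 + s) * c) ^ 2 / Z1 := by field_simp
    rw [h9, div_le_iff₀ hZ1]
    nlinarith [mul_le_mul_of_nonneg_left h7 (sq_nonneg K)]
  · have h9 : (S v ρ E B (D e f) / Z0) ^ 2 * Z0 = S v ρ E B (D e f) ^ 2 / Z0 := by field_simp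
    rw [h9, div_le_iff₀ hZ0, mul_comm]
    exact S_cs H.v0 H.pos E B _

/-- Theorem B -/
theorem poincare {s K : ℝ} {d : ι → Finset ι → ℝ} (H : Hyp v s K ρ d) {f : Finset ι → ℝ}
    (hf : Monotone f) (E B : Finset ι) :
    Vr v ρ E B f ≤ 2 * E.card * (1 + K ^ 2 * E.card) * Dr v ρ E B f := by
  induction E using Finset.induction_on generalizing B with
  | empty =>
    have := (H.pos B).ne'
    simp only [Vr, S_empty, card_empty, Nat.cast_zero, mul_zero, zero_mul]
    field_simp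
    simp
  | insert e E he ih =>
    obtain ⟨a, b, h1, h2, h3⟩ := gap H E B e hf
    have hZ0 := S_pos H.v0 H.pos E B
    have hZ1 := S_pos H.v0 H.pos E (insert e B)
    have i0 := ih B
    have i1 := mul_le_mul_of_nonneg_left (ih (insert e B)) H.v0
    have p0 := Dr_nonneg H.v0 H.pos E B f
    have p1 := mul_nonneg H.v0 (Dr_nonneg H.v0 H.pos E (insert e B) f)
    have p2 := S_nonneg H.v0 H.pos E B (g := fun Y => D e f Y ^ 2) fun _ => sq_nonneg _
    rw [Dr_insert he, card_insert_of_notMem he]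
    have hv := H.v0
    set Z0 := S v ρ E B fun _ => 1 with hZ0d
    set Z1 := S v ρ E (insert e B) fun _ => 1 with hZ1d
    have hZ : 0 < Z0 + v * Z1 := by positivity
    have e1 : Vr v ρ (insert e E) B f = Vr v ρ E B f + v * Vr v ρ E (insert e B) f +
        Z0 * (v * Z1) / (Z0 + v * Z1) * (a + b) ^ 2 := by
      unfold Vr
      rw [← h1, S_insert he, S_insert he, S_insert he, ← hZ0d, ← hZ1d]
      field_simp
      ring
    have e2 : Z0 * (v * Z1) / (Z0 + v * Z1) * (a + b) ^ 2 ≤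
        2 * (v * (a ^ 2 * Z1)) + 2 * (b ^ 2 * Z0) := by
      rw [div_mul_eq_mul_div, div_le_iff₀ hZ]
      have k1 : 0 ≤ v * Z1 := by positivity
      nlinarith [mul_nonneg (mul_nonneg hZ0.le k1) (sq_nonneg (a - b)),
        mul_nonneg (mul_nonneg k1 k1) (sq_nonneg a), mul_nonneg (mul_nonneg hZ0.le hZ0.le) (sq_nonneg b)]
    have e3 := mul_le_mul_of_nonneg_left h2 hv
    have hc : (0 : ℝ) ≤ E.card := Nat.cast_nonneg _
    have hK := sq_nonneg K
    set x := S v ρ E B fun Y => D e f Y ^ 2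
    set y := Dr v ρ E B f
    set z := Dr v ρ E (insert e B) f
    set n : ℝ := (E.card : ℝ)
    rw [e1]
    push_cast
    have q1 : 0 ≤ K ^ 2 * n := mul_nonneg hK hc
    nlinarith [mul_nonneg q1 p0, mul_nonneg q1 p1, mul_nonneg q1 p2, mul_nonneg hK p0,
      mul_nonneg hK p1, mul_nonneg hK p2, mul_nonneg hc p2, mul_nonneg (mul_nonneg q1 hc) p2]

end Pool.Agent.Lib.GJ.H55
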