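import Mathlib

/-! Random-cluster measures with `1 ≤ q ≤ 2`: the FKG inequality and a reverse Russo inequality. -/

set_option linter.unusedSectionVars false

namespace Pool.Agent.Lib.GJ.H10
open Finset

variable {ι V K : Type} [DecidableEq ι] [Field K] [LinearOrder K] [IsStrictOrderedRing K]

/-- connectivity `c` and rank `r` of a multigraph with end maps `s`, `t` -/
structure Cn (s t : ι → V) (c : Finset ι → V → V → Prop) (r : Finset ι → ℕ) : Prop where
  emp : ∀ a b, c ∅ a b → a = b
  refl : ∀ Y a, c Y a a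
  symm : ∀ {Y a b}, c Y a b → c Y b a
  trans : ∀ {Y a b d}, c Y a b → c Y b d → c Y a d
  ins : ∀ Y e a b, c (insert e Y) a b ↔
    c Y a b ∨ (c Y a (s e) ∧ c Y (t e) b) ∨ (c Y a (t e) ∧ c Y (s e) b)
  rk1 : ∀ Y e, c Y (s e) (t e) → r (insert e Y) = r Y
  rk0 : ∀ Y e, ¬ c Y (s e) (t e) → r (insert e Y) = r Y + 1

open Classical in
/-- indicator -/
noncomputable def ind (p : Prop) : K := if p then 1 else 0

lemma ind_pos {p : Prop} (h : p) : (ind p : K) = 1 := if_pos h
lemma ind_neg {p : Prop} (h : ¬ p) : (ind p : K) = 0 := if_neg h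
lemma ind_nonneg (p : Prop) : (0 : K) ≤ ind p := by unfold ind; split_ifs <;> norm_num
lemma ind_le_one (p : Prop) : (ind p : K) ≤ 1 := by unfold ind; split_ifs <;> norm_num
lemma ind_mono {p p' : Prop} (h : p → p') : (ind p : K) ≤ ind p' := by
  by_cases hp : p
  · rw [ind_pos hp, ind_pos (h hp)]
  · rw [ind_neg hp]; exact ind_nonneg _

/-- the unnormalised expectation: free edges `E`, edges pinned open `B` -/
def S (q v : K) (r : Finset ι → ℕ) (E B : Finset ι) (g : Finset ι → K) : K :=
  ∑ X ∈ E.powerset, v ^ X.card * q⁻¹ ^ r (B ∪ X) * g (B ∪ X)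

/-- the expectation -/
def φ (q v : K) (r : Finset ι → ℕ) (E B : Finset ι) (g : Finset ι → K) : K :=
  S q v r E B g / S q v r E B fun _ => 1

/-- the weighted sum of the influences -/
def cost (q v : K) (r : Finset ι → ℕ) (E B : Finset ι) (n f : Finset ι → K) : K :=
  ∑ g ∈ E, v * S q v r (E.erase g) B fun Y => n Y * (f (insert g Y) - f Y)

/-- the factor picked up when `e` is opened -/
noncomputable def ρ (q : K) (p : Prop) : K := q⁻¹ + (1 - q⁻¹) * ind p

/-- the size of the cluster of `z` -/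
noncomputable def N (c : Finset ι → V → V → Prop) (Vs : Finset V) (z : V) (Y : Finset ι) : K :=
  ∑ y ∈ Vs, ind (c Y z y)

variable {s t : ι → V} {c : Finset ι → V → V → Prop} {r : Finset ι → ℕ} {q v : K}

namespace Cn

lemma mono (h : Cn s t c r) {Y Y' : Finset ι} (hY : Y ⊆ Y') {a b : V} (hab : c Y a b) :
    c Y' a b := by
  have : ∀ X : Finset ι, c (Y ∪ X) a b := fun X => by
    induction X using Finset.induction_on with
    | empty => simpa using hab
    | insert e X _ ih => rw [union_insert]; exact (h.ins _ _ _ _).2 (Or.inl ih)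
  simpa [union_eq_right.2 hY] using this Y'

lemma edge (h : Cn s t c r) {Y : Finset ι} {e : ι} (he : e ∈ Y) : c Y (s e) (t e) := by
  have := (h.ins Y e (s e) (t e)).2 (Or.inr (Or.inl ⟨h.refl _ _, h.refl _ _⟩))
  rwa [insert_eq_of_mem he] at this

lemma resp (h : Cn s t c r) (P : V → Prop) (Y : Finset ι) :
    (∀ g ∈ Y, P (s g) ↔ P (t g)) → ∀ a b, c Y a b → (P a ↔ P b) := by
  induction Y using Finset.induction_on with
  | empty => intro _ a b hab; rw [h.emp a b hab]
  | insert e Y _ ih =>
    intro hY a b hab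
    have h1 := ih fun g hg => hY g (mem_insert_of_mem hg)
    have h2 := hY e (mem_insert_self _ _)
    rcases (h.ins _ _ _ _).1 hab with h3 | ⟨h3, h4⟩ | ⟨h3, h4⟩
    · exact h1 _ _ h3
    · exact ((h1 _ _ h3).trans h2).trans (h1 _ _ h4)
    · exact ((h1 _ _ h3).trans h2.symm).trans (h1 _ _ h4)

lemma far (h : Cn s t c r) (P : V → Prop) {Y : Finset ι} (hY : ∀ g ∈ Y, P (s g) ↔ P (t g))
    (X : Finset ι) : (∀ g ∈ X, ¬ P (s g) ∧ ¬ P (t g)) → ∀ a b, P a → (c (Y ∪ X) a b ↔ c Y a b) := by
  induction X using Finset.induction_on with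
  | empty => intro _ a b _; rw [union_empty]
  | insert e X _ ih =>
    intro hX a b ha
    have h1 := ih fun g hg => hX g (mem_insert_of_mem hg)
    have h2 := hX e (mem_insert_self _ _)
    rw [union_insert, h.ins, h1 a b ha, h1 a _ ha, h1 a _ ha]
    refine ⟨?_, Or.inl⟩
    rintro (h3 | ⟨h3, -⟩ | ⟨h3, -⟩)
    · exact h3
    · exact absurd ((h.resp P Y hY _ _ h3).1 ha) h2.1
    · exact absurd ((h.resp P Y hY _ _ h3).1 ha) h2.2

end Cn

lemma S_insert {E : Finset ι} {e : ι} (he : e ∉ E) (B : Finset ι) (g : Finset ι → K) :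
    S q v r (insert e E) B g = S q v r E B g + v * S q v r E (insert e B) g := by
  rw [S, sum_powerset_insert he, S, S, mul_sum]
  congr 1
  refine sum_congr rfl fun X hX => ?_
  rw [card_insert_of_notMem fun h => he (mem_powerset.1 hX h), union_insert, insert_union]
  ring

lemma S_base (h : Cn s t c r) (E B : Finset ι) (e : ι) (g : Finset ι → K) :
    S q v r E (insert e B) g =
      S q v r E B fun Y => ρ q (c Y (s e) (t e)) * g (insert e Y) := by
  refine sum_congr rfl fun X _ => ?_
  rw [insert_union]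
  by_cases hc : c (B ∪ X) (s e) (t e)
  · simp only [h.rk1 _ _ hc, ρ, ind_pos hc]; ring
  · simp only [h.rk0 _ _ hc, ρ, ind_neg hc]; ring

lemma S_congr {E B : Finset ι} {g g' : Finset ι → K} (H : ∀ X ⊆ E, g (B ∪ X) = g' (B ∪ X)) :
    S q v r E B g = S q v r E B g' :=
  sum_congr rfl fun X hX => by rw [H X (mem_powerset.1 hX)]

lemma S_le (hq : 0 < q) (hv : 0 ≤ v) {E B : Finset ι} {g g' : Finset ι → K}
    (H : ∀ X ⊆ E, g (B ∪ X) ≤ g' (B ∪ X)) : S q v r E B g ≤ S q v r E B g' :=
  sum_le_sum fun X hX => mul_le_mul_of_nonneg_left (H X (mem_powerset.1 hX)) (by positivity)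

lemma S_add (E B : Finset ι) (g g' : Finset ι → K) :
    S q v r E B (fun Y => g Y + g' Y) = S q v r E B g + S q v r E B g' := by
  simp only [S, mul_add, sum_add_distrib]

lemma S_sub (E B : Finset ι) (g g' : Finset ι → K) :
    S q v r E B (fun Y => g Y - g' Y) = S q v r E B g - S q v r E B g' := by
  simp only [S, mul_sub, sum_sub_distrib]

lemma S_mul (E B : Finset ι) (a : K) (g : Finset ι → K) :
    S q v r E B (fun Y => a * g Y) = a * S q v r E B g := by
  simp only [S, mul_sum]; exact sum_congr rfl fun _ _ => by ring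

lemma S_const (E B : Finset ι) (a : K) :
    S q v r E B (fun _ => a) = a * S q v r E B fun _ => 1 := by
  rw [← S_mul]; simp only [mul_one]

lemma S_nonneg (hq : 0 < q) (hv : 0 ≤ v) {E B : Finset ι} {g : Finset ι → K}
    (H : ∀ X ⊆ E, 0 ≤ g (B ∪ X)) : 0 ≤ S q v r E B g :=
  sum_nonneg fun X hX => mul_nonneg (by positivity) (H X (mem_powerset.1 hX))

lemma Z_pos (hq : 0 < q) (hv : 0 ≤ v) (E B : Finset ι) : 0 < S q v r E B fun _ => (1 : K) :=
  sum_pos' (fun X _ => by positivity) ⟨∅, empty_mem_powerset _, by simp; positivity⟩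

lemma φ_mul_Z (hq : 0 < q) (hv : 0 ≤ v) (E B : Finset ι) (g : Finset ι → K) :
    φ q v r E B g * S q v r E B (fun _ => 1) = S q v r E B g :=
  div_mul_cancel₀ _ (Z_pos hq hv E B).ne'

lemma ρ_pos (hq : 1 ≤ q) (p : Prop) : 0 < ρ q p := by
  have h1 : 0 < q⁻¹ := by positivity
  have h2 := inv_le_one_of_one_le₀ hq
  have := mul_nonneg (sub_nonneg.2 h2) (ind_nonneg (K := K) p)
  rw [ρ]; linarith

lemma ρ_le_one (hq : 1 ≤ q) (p : Prop) : ρ q p ≤ 1 := by
  have h2 := inv_le_one_of_one_le₀ hq
  have := mul_le_mul_of_nonneg_left (ind_le_one (K := K) p) (sub_nonneg.2 h2)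
  rw [ρ]; linarith

lemma base_aux (h : Cn s t c r) (hq : 1 ≤ q) (hv : 0 ≤ v) {E B : Finset ι}
    (H : ∀ f g : Finset ι → K, Monotone f → Monotone g → S q v r E B f * S q v r E B g ≤
      S q v r E B (fun _ => 1) * S q v r E B fun Y => f Y * g Y)
    (e : ι) {f : Finset ι → K} (hf : Monotone f) :
    S q v r E (insert e B) (fun _ => 1) * S q v r E B f ≤
      S q v r E B (fun _ => 1) * S q v r E (insert e B) f := by
  have hq0 : 0 < q := by linarith
  rw [S_base h, S_base h]
  simp only [mul_one]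
  refine (H _ f (fun Y Y' hY => ?_) hf).trans (mul_le_mul_of_nonneg_left
    (S_le hq0 hv fun X _ => mul_le_mul_of_nonneg_left (hf (subset_insert _ _)) (ρ_pos hq _).le)
    (Z_pos hq0 hv _ _).le)
  exact add_le_add le_rfl (mul_le_mul_of_nonneg_left (ind_mono (h.mono hY))
    (sub_nonneg.2 (inv_le_one_of_one_le₀ hq)))

/-- the FKG inequality -/
theorem fkg (h : Cn s t c r) (hq : 1 ≤ q) (hv : 0 ≤ v) (E : Finset ι) :
    ∀ (B : Finset ι) (f g : Finset ι → K), Monotone f → Monotone g →
      S q v r E B f * S q v r E B g ≤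
        S q v r E B (fun _ => 1) * S q v r E B fun Y => f Y * g Y := by
  have hq0 : 0 < q := by linarith
  induction E using Finset.induction_on with
  | empty => intro B f g _ _; simp only [S, powerset_empty, sum_singleton]; apply le_of_eq; ring
  | insert e E he ih =>
    intro B f g hf hg
    have h0 := ih B f g hf hg
    have h1 := ih (insert e B) f g hf hg
    have ha := base_aux h hq hv (ih B) e hf
    have hb := base_aux h hq hv (ih B) e hg
    have z0 := Z_pos (r := r) hq0 hv E B
    have z1 := Z_pos (r := r) hq0 hv E (insert e B)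
    simp only [S_insert he]
    generalize S q v r E B f = a0 at *
    generalize S q v r E B g = b0 at *
    generalize S q v r E (insert e B) f = a1 at *
    generalize S q v r E (insert e B) g = b1 at *
    generalize S q v r E B (fun Y => f Y * g Y) = c0 at *
    generalize S q v r E (insert e B) (fun Y => f Y * g Y) = c1 at *
    generalize S q v r E B (fun _ => 1) = Z0 at *
    generalize S q v r E (insert e B) (fun _ => 1) = Z1 at *
    have h2 : a0 * b1 + a1 * b0 ≤ Z0 * c1 + Z1 * c0 := by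
      refine le_of_mul_le_mul_left ?_ (mul_pos z0 z1)
      nlinarith [mul_nonneg (sub_nonneg.2 ha) (sub_nonneg.2 hb),
        mul_le_mul_of_nonneg_left h0 (mul_pos z1 z1).le,
        mul_le_mul_of_nonneg_left h1 (mul_pos z0 z0).le]
    nlinarith [mul_le_mul_of_nonneg_left h2 hv, mul_le_mul_of_nonneg_left h1 (mul_nonneg hv hv)]

lemma φ_base (h : Cn s t c r) (hq : 1 ≤ q) (hv : 0 ≤ v) (E B : Finset ι) (e : ι)
    {f : Finset ι → K} (hf : Monotone f) : φ q v r E B f ≤ φ q v r E (insert e B) f := by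
  have hq0 : 0 < q := by linarith
  rw [φ, φ, div_le_div_iff₀ (Z_pos hq0 hv _ _) (Z_pos hq0 hv _ _)]
  linarith [base_aux h hq hv (fkg h hq hv E B) e hf]

lemma φ_ins (h : Cn s t c r) (hq : 1 ≤ q) (hv : 0 ≤ v) {E : Finset ι} {e : ι} (he : e ∉ E)
    (B : Finset ι) {f : Finset ι → K} (hf : Monotone f) :
    φ q v r E B f ≤ φ q v r (insert e E) B f := by
  have hq0 : 0 < q := by linarith
  rw [φ, φ, div_le_div_iff₀ (Z_pos hq0 hv _ _) (Z_pos hq0 hv _ _), S_insert he, S_insert he]
  nlinarith [mul_le_mul_of_nonneg_left (base_aux h hq hv (fkg h hq hv E B) e hf) hv]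

/-- monotonicity in the free edges and in the pinned edges -/
theorem φ_mono (h : Cn s t c r) (hq : 1 ≤ q) (hv : 0 ≤ v) {E E' B B' : Finset ι} (hE : E ⊆ E')
    (hB : B ⊆ B') {f : Finset ι → K} (hf : Monotone f) : φ q v r E B f ≤ φ q v r E' B' f := by
  have h1 : ∀ X : Finset ι, φ q v r E B f ≤ φ q v r E (B ∪ X) f := fun X => by
    induction X using Finset.induction_on with
    | empty => rw [union_empty]
    | insert e X _ ih => rw [union_insert]; exact ih.trans (φ_base h hq hv _ _ _ hf)
  have h2 : ∀ X : Finset ι, φ q v r E B' f ≤ φ q v r (E ∪ X) B' f := fun X => by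
    induction X using Finset.induction_on with
    | empty => rw [union_empty]
    | insert e X _ ih =>
      rw [union_insert]
      by_cases he : e ∈ E ∪ X
      · rwa [insert_eq_of_mem he]
      · exact ih.trans (φ_ins h hq hv he _ hf)
  have h3 := h1 B'
  have h4 := h2 E'
  rw [union_eq_right.2 hB] at h3
  rw [union_eq_right.2 hE] at h4
  exact h3.trans h4

end Pool.Agent.Lib.GJ.H10
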