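import Pool.Agent.Lib.GJ.A10
import Pool.Agent.Lib.FL.Orc10

/-! An edge list, indexed by positions, as an instance of the connectivity structure. -/

namespace Pool.Agent.Lib.GJ.H10
open Finset Pool.Agent.Lib.MP_b67cc8_lc Pool.Agent.Lib.FL.H10

lemma lab_concat (e : ℕ × ℕ) (L : EL) : ∀ f, lab f (L ++ [e]) = mrg (lab f L) e.1 e.2 := by
  induction L with
  | nil => intro f; rfl
  | cons d L ih => intro f; exact ih _

lemma lab_ker {L L' : EL} (h : ∀ e ∈ L, e ∈ L' ∨ e.1 = e.2) {a b : ℕ}
    (hab : lab id L a = lab id L b) : lab id L' a = lab id L' b :=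
  (lab_univ (L := L) (f := id) (φ := lab id L')).2 ⟨(lab_self id _).1, fun d hd =>
    (h d hd).elim ((lab_self id _).2 d) (congrArg _)⟩ a b hab

/-- `a` and `b` are joined by the edges at the positions in `A` -/
def cn (E : EL) (A : Finset ℕ) (a b : ℕ) : Prop := lab id (sel E A) a = lab id (sel E A) b

theorem cn_graph (E : EL) :
    Cn (fun i => (E.getD i (0, 0)).1) (fun i => (E.getD i (0, 0)).2) (cn E) (gr E) where
  emp a b h := by simpa [cn, sel, lab] using h
  refl _ _ := rfl
  symm h := Eq.symm h
  trans h h' := Eq.trans h h'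
  ins Y e a b := by
    have h1 : cn E (insert e Y) a b ↔ lab id (sel E Y ++ [E.getD e (0, 0)]) a =
        lab id (sel E Y ++ [E.getD e (0, 0)]) b := by
      refine ⟨lab_ker fun d hd => Or.inl ?_, lab_ker fun d hd => ?_⟩
      · obtain ⟨j, h1, h2, h3⟩ := mem_sel.1 hd
        rcases mem_insert.1 h2 with rfl | h2
        · simp [← h3]
        · exact List.mem_append_left _ (mem_sel.2 ⟨j, h1, h2, h3⟩)
      · rcases List.mem_append.1 hd with h | h
        · exact Or.inl (sel_mono E (subset_insert _ _) h)
        · rw [List.mem_singleton.1 h]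
          by_cases he : e < E.length
          · exact Or.inl (mem_sel.2 ⟨e, he, mem_insert_self _ _, rfl⟩)
          · right; rw [List.getD_eq_default _ _ (not_lt.1 he)]
    rw [h1, lab_concat]
    simp only [cn, mrg]
    split_ifs <;> omega
  rk1 Y e h := by
    rw [gr_insert]
    split_ifs with h1 h2
    · rfl
    · exact absurd h h2
    · rfl
  rk0 Y e h := by
    rw [gr_insert]
    split_ifs with h1 h2
    · exact absurd h2 h
    · rfl
    · exact absurd (by simp only [cn, List.getD_eq_default _ _ (not_lt.1 h1)]) h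

/-- the ends of the edges -/
def ends (E : EL) : Finset ℕ := (range E.length).image (fun i => (E.getD i (0, 0)).1) ∪
  (range E.length).image fun i => (E.getD i (0, 0)).2

lemma mem_ends (E : EL) {i : ℕ} (hi : i < E.length) :
    (E.getD i (0, 0)).1 ∈ ends E ∧ (E.getD i (0, 0)).2 ∈ ends E :=
  ⟨mem_union_left _ (mem_image_of_mem _ (mem_range.2 hi)),
    mem_union_right _ (mem_image_of_mem _ (mem_range.2 hi))⟩

lemma card_ends (E : EL) : (ends E).card ≤ 2 * E.length := by
  have h1 := card_image_le (s := range E.length) (f := fun i => (E.getD i (0, 0)).1)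
  have h2 := card_image_le (s := range E.length) (f := fun i => (E.getD i (0, 0)).2)
  rw [card_range] at h1 h2
  exact (card_union_le _ _).trans (by omega)

lemma N_le {ι V K : Type} [Field K] [LinearOrder K] [IsStrictOrderedRing K]
    (c : Finset ι → V → V → Prop) (Vs : Finset V) (z : V) (Y : Finset ι) :
    (N c Vs z Y : K) ≤ Vs.card := by
  simpa [N] using sum_le_card_nsmul Vs (fun y => (ind (c Y z y) : K)) 1 fun _ _ => ind_le_one _

end Pool.Agent.Lib.GJ.H10
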