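import Pool.Agent.Lib.GJ.PI
import Pool.Agent.Lib.GJ.D10

/-! An edge list as an instance of the abstract connectivity structure. -/

namespace Pool.Agent.Lib.GJ

open Finset Pool.Agent.Lib.MP_b67cc8_lc Pool.Agent.Lib.FL

/-- connectivity through the edges at the positions in `Y` -/
def gc (E : EL) (Y : Finset ℕ) (a b : ℕ) : Prop :=
  ∀ φ : ℕ → Prop, (∀ i ∈ Y, φ (E.getD i (0, 0)).1 ↔ φ (E.getD i (0, 0)).2) → (φ a ↔ φ b)

lemma gc_iff (E : EL) (Y : Finset ℕ) (a b : ℕ) :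
    gc E Y a b ↔ lab id (H10.sel E Y) a = lab id (H10.sel E Y) b := by
  constructor
  · intro h
    refine ((h (fun w => lab id (H10.sel E Y) a = lab id (H10.sel E Y) w) fun i hi => ?_).1 rfl)
    by_cases hl : i < E.length
    · rw [(lab_self id (H10.sel E Y)).2 _ (H10.mem_sel.2 ⟨i, hl, hi, rfl⟩)]
    · rw [List.getD_eq_default _ _ (not_lt.1 hl)]
  · intro h φ H
    refine iff_of_eq ((lab_univ (φ := φ) (L := H10.sel E Y) (f := id)).2
      ⟨fun x y e => congrArg φ e, fun e he => ?_⟩ _ _ h)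
    obtain ⟨i, -, hi, rfl⟩ := H10.mem_sel.1 he
    exact propext (H i hi)

theorem cn_graph (E : EL) : H10.Cn (fun i => (E.getD i (0, 0)).1) (fun i => (E.getD i (0, 0)).2)
    (gc E) (H10.gr E) := by
  have rf : ∀ Y a, gc E Y a a := fun _ _ _ _ => Iff.rfl
  have sy : ∀ {Y a b}, gc E Y a b → gc E Y b a := fun h φ H => (h φ H).symm
  have tr : ∀ {Y a b d}, gc E Y a b → gc E Y b d → gc E Y a d := fun h h' φ H =>
    (h φ H).trans (h' φ H)
  refine ⟨fun a b h => ((h (a = ·) (by simp)).1 rfl), rf, sy, tr, fun Y e a b => ?_,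
    fun Y e h => ?_, fun Y e h => ?_⟩
  · have k : gc E (insert e Y) (E.getD e (0, 0)).1 (E.getD e (0, 0)).2 := fun _ H =>
      H e (mem_insert_self _ _)
    have k' : ∀ {a b}, gc E Y a b → gc E (insert e Y) a b := fun h φ H =>
      h φ fun i hi => H i (mem_insert_of_mem hi)
    refine ⟨fun h => (h (fun y => gc E Y a y ∨ (gc E Y a (E.getD e (0, 0)).1 ∧
      gc E Y (E.getD e (0, 0)).2 y) ∨ (gc E Y a (E.getD e (0, 0)).2 ∧
      gc E Y (E.getD e (0, 0)).1 y)) fun i hi => ?_).1 (.inl (rf _ _)), ?_⟩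
    · rcases mem_insert.1 hi with rfl | hi
      · have := rf Y
        tauto
      · have h1 : gc E Y (E.getD i (0, 0)).1 (E.getD i (0, 0)).2 := fun _ H => H i hi
        have h2 : ∀ x, gc E Y x (E.getD i (0, 0)).1 ↔ gc E Y x (E.getD i (0, 0)).2 := fun x =>
          ⟨fun h => tr h h1, fun h => tr h (sy h1)⟩
        simp only [h2]
    · rintro (h | ⟨h, h'⟩ | ⟨h, h'⟩)
      exacts [k' h, tr (tr (k' h) k) (k' h'), tr (tr (k' h) (sy k)) (k' h')]
  · rw [H10.gr_insert, if_pos ((gc_iff _ _ _ _).1 h), ite_self, add_zero]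
  · have hl : e < E.length := by
      by_contra hl
      rw [List.getD_eq_default _ _ (not_lt.1 hl)] at h
      exact h (rf _ _)
    rw [H10.gr_insert, if_pos hl, if_neg fun h' => h ((gc_iff _ _ _ _).2 h')]

end Pool.Agent.Lib.GJ
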