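import Pool.Agent.Lib.FL.Mix28

/-! Mixing of monotone observables for a monotone reversible chain driven by random bits, from a
Poincare inequality which is only known for monotone functions. -/

namespace Pool.Agent.Lib.GJ.H81

open Finset Pool.Agent.Lib.MP_b67cc8_lc Pool.Agent.FL.Mix28

variable {σ : Type} [Preorder σ]

theorem lz_mono {h : σ → List Bool → σ} (hm : ∀ x, Monotone fun s => h s x) (x : List Bool) :
    Monotone fun s => lz h s x := by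
  intro a b hab
  unfold lz
  beta_reduce
  split_ifs
  exacts [hm _ hab, hab]

theorem Kop_mono {h : σ → List Bool → σ} (hm : ∀ x, Monotone fun s => h s x) (k : ℕ)
    {f : σ → ℝ} (hf : Monotone f) : Monotone (Kop k h f) :=
  fun _ _ hab => Ex_mono fun x _ => hf (hm x hab)

theorem Kop_iter_mono {h : σ → List Bool → σ} (hm : ∀ x, Monotone fun s => h s x) (k t : ℕ)
    {f : σ → ℝ} (hf : Monotone f) : Monotone ((Kop k h)^[t] f) := by
  induction t with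
  | zero => exact hf
  | succ t ih => rw [Function.iterate_succ_apply']; exact Kop_mono hm k ih

variable {Ω : Finset σ} {w : σ → ℝ} {k : ℕ} {h : σ → List Bool → σ}

/-- decay of the variance of monotone functions -/
theorem mixM_sq (hw : ∀ s ∈ Ω, 0 ≤ w s) (hR : Rev Ω w k h) (hm : ∀ x, Monotone fun s => h s x)
    {γ : ℝ} (γ4 : γ ≤ 4)
    (hP : ∀ f : σ → ℝ, Monotone f → ∑ s ∈ Ω, w s * f s = 0 →
      γ * ∑ s ∈ Ω, w s * f s ^ 2 ≤ Dir Ω w k h f)
    {f : σ → ℝ} (hf : Monotone f) (c : ℝ) (hc : ∑ s ∈ Ω, w s * (f s - c) = 0) (t : ℕ) :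
    ∑ s ∈ Ω, w s * ((Kop (k + 1) (lz h))^[t] f s - c) = 0 ∧
      ∑ s ∈ Ω, w s * ((Kop (k + 1) (lz h))^[t] f s - c) ^ 2 ≤
        (1 - γ / 4) ^ t * ∑ s ∈ Ω, w s * (f s - c) ^ 2 := by
  induction t with
  | zero => exact ⟨hc, by simp⟩
  | succ t ih =>
    have e := Kop_sub (k + 1) (lz h) ((Kop (k + 1) (lz h))^[t] f) c
    have a1 := lz_sum hR fun s => (Kop (k + 1) (lz h))^[t] f s - c
    have a2 := lz_sq hw hR fun s => (Kop (k + 1) (lz h))^[t] f s - c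
    have a3 := hP _ (fun a b hab =>
      sub_le_sub_right (Kop_iter_mono (lz_mono hm) (k + 1) t hf hab) c) ih.1
    rw [e] at a1 a2
    simp only [Function.iterate_succ_apply']
    refine ⟨a1.trans ih.1, a2.trans ?_⟩
    rw [pow_succ', mul_assoc]
    have := mul_le_mul_of_nonneg_left ih.2 (show 0 ≤ 1 - γ / 4 by linarith)
    linarith

/-- mixing from any start state, for monotone `0 ≤ f ≤ 1` -/
theorem mixM (hw : ∀ s ∈ Ω, 0 < w s) (hR : Rev Ω w k h) (hm : ∀ x, Monotone fun s => h s x)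
    {γ : ℝ} (γ4 : γ ≤ 4)
    (hP : ∀ f : σ → ℝ, Monotone f → ∑ s ∈ Ω, w s * f s = 0 →
      γ * ∑ s ∈ Ω, w s * f s ^ 2 ≤ Dir Ω w k h f)
    {f : σ → ℝ} (hf : Monotone f) (h0 : ∀ s ∈ Ω, 0 ≤ f s) (h1 : ∀ s ∈ Ω, f s ≤ 1) (t : ℕ) {n : ℕ}
    (hn : (k + 1) * t ≤ n) {s₀ : σ} (hs : s₀ ∈ Ω) :
    w s₀ * (Ex n (fun r => f (rit (k + 1) (lz h) t s₀ r)) -
      (∑ s ∈ Ω, w s * f s) / ∑ s ∈ Ω, w s) ^ 2 ≤ (1 - γ / 4) ^ t * ∑ s ∈ Ω, w s := by
  have hZ : 0 < ∑ s ∈ Ω, w s := sum_pos hw ⟨s₀, hs⟩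
  set c := (∑ s ∈ Ω, w s * f s) / ∑ s ∈ Ω, w s with hcd
  have c0 : 0 ≤ c := div_nonneg (sum_nonneg fun s hs => mul_nonneg (hw s hs).le (h0 s hs)) hZ.le
  have c1 : c ≤ 1 := by
    rw [hcd, div_le_one hZ]
    exact sum_le_sum fun s hs => mul_le_of_le_one_right (hw s hs).le (h1 s hs)
  have hc : ∑ s ∈ Ω, w s * (f s - c) = 0 := by
    simp only [mul_sub, sum_sub_distrib, ← sum_mul]
    rw [hcd]
    field_simp
    ring
  have key := (mixM_sq (fun s hs => (hw s hs).le) hR hm γ4 hP hf c hc t).2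
  rw [Ex_rit _ _ _ _ _ _ hn]
  refine (single_le_sum (f := fun s => w s * ((Kop (k + 1) (lz h))^[t] f s - c) ^ 2)
    (fun s hs => mul_nonneg (hw s hs).le (sq_nonneg _)) hs).trans (key.trans ?_)
  refine mul_le_mul_of_nonneg_left (sum_le_sum fun s hs => ?_) (pow_nonneg (by linarith) _)
  refine mul_le_of_le_one_right (hw s hs).le ?_
  nlinarith [h0 s hs, h1 s hs]

end Pool.Agent.Lib.GJ.H81
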