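import Pool.Agent.Lib.FL.Mix28

/-! Numerical estimates for the choice of parameters. -/

namespace Pool.Agent.Lib.GJ.H79

open Pool.Agent.FL.Mix28

theorem size_bd {N : ℕ} (h0 : 0 < N) : N ≤ 2 ^ N.size ∧ 2 ^ N.size ≤ 2 * N := by
  refine ⟨(Nat.lt_size_self _).le, ?_⟩
  have h1 : 0 < N.size := Nat.size_pos.2 h0
  have h2 : 2 ^ (N.size - 1) ≤ N := Nat.lt_size.1 (by omega)
  obtain ⟨c, hc⟩ : ∃ c, N.size = c + 1 := ⟨N.size - 1, by omega⟩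
  rw [hc] at h2 ⊢
  rw [pow_succ]
  simp only [Nat.add_sub_cancel] at h2
  omega

theorem num1 {N : ℕ} (h : 16 ≤ N) : N ^ N * (N ^ 5) ^ 2 ≤ 2 ^ N ^ 3 := by
  have h1 : N ≤ 2 ^ N := Nat.lt_two_pow_self.le
  calc N ^ N * (N ^ 5) ^ 2 = N ^ (N + 10) := by rw [← pow_mul, ← pow_add]
    _ ≤ (2 ^ N) ^ (N + 10) := Nat.pow_le_pow_left h1 _
    _ = 2 ^ (N * (N + 10)) := by rw [← pow_mul]
    _ ≤ 2 ^ N ^ 3 := Nat.pow_le_pow_right two_pos (by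
      have a : N + 10 ≤ N * N := by nlinarith
      calc N * (N + 10) ≤ N * (N * N) := Nat.mul_le_mul_left _ a
        _ = N ^ 3 := by ring)

theorem num2 {N j : ℕ} (h : 16 ≤ N) (hj : j ≤ N) {w z : ℝ} (w0 : 0 ≤ w) (hw : w ≤ N)
    (hz : z ^ 2 ≤ (1 - 1 / (N : ℝ) ^ 7 / 4) ^ N ^ 11 * w ^ j) : |z| ≤ 1 / (N : ℝ) ^ 5 := by
  have N1 : (16 : ℝ) ≤ N := by exact_mod_cast h
  have N0 : (0 : ℝ) < N := by linarith
  have a1 : (1 : ℝ) / N ^ 7 ≤ 4 :=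
    ((div_le_one (by positivity)).2 (one_le_pow₀ (by linarith))).trans (by norm_num)
  have a2 := pow_le_half a1 (N := N ^ 8) (by
    push_cast
    rw [show (1 : ℝ) / N ^ 7 * N ^ 8 = N by field_simp]
    linarith) (N ^ 3)
  rw [← pow_add] at a2
  have a3 : w ^ j ≤ (N : ℝ) ^ N :=
    (pow_le_pow_left₀ w0 hw j).trans (pow_le_pow_right₀ (by linarith) hj)
  have a4 : (N : ℝ) ^ N * (N ^ 5) ^ 2 ≤ 2 ^ N ^ 3 := by exact_mod_cast num1 h
  refine abs_le_of_sq_le_sq (hz.trans ((mul_le_mul a2 a3 (pow_nonneg w0 _)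
    (by positivity)).trans ?_)) (by positivity)
  rw [one_div_pow, one_div_pow, div_mul_eq_mul_div, one_mul, div_le_div_iff₀ (by positivity)
    (by positivity), one_mul]
  exact a4

end Pool.Agent.Lib.GJ.H79
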