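import Pool.Agent.Lib.FL.Fin79

/-! The region `1 ≤ x`, `1 ≤ y`, `(x - 1) (y - 1) ≤ 1` from the strips. -/

namespace Pool.Agent.Lib.GJ.Q10
open Finset Pool.Agent.Lib.helper82 Pool.Agent.Lib.MP_b67cc8_lc Pool.Agent.Lib.FL
open Pool.Agent.Lib.FL.H5
open Pool.Agent.Lib.MP_dec383_lc (UN)

/-- the element `m` becomes a coloop -/
def col (m : ℕ) (ρ : Finset ℕ → ℕ) (A : Finset ℕ) : ℕ := ρ (A.erase m) + if m ∈ A then 1 else 0

lemma col_ins (m : ℕ) (ρ : Finset ℕ → ℕ) (A : Finset ℕ) :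
    col m ρ (insert m A) = ρ (A.erase m) + 1 := by
  rw [col, erase_insert_eq_erase, if_pos (mem_insert_self _ _)]

lemma col_ne {m e : ℕ} (h : e ≠ m) (ρ : Finset ℕ → ℕ) (A : Finset ℕ) :
    col m ρ (insert e A) = ρ (insert e (A.erase m)) + if m ∈ A then 1 else 0 := by
  simp only [col, erase_insert_of_ne h, mem_insert, h.symm, false_or]

lemma col_rk {ρ : Finset ℕ → ℕ} (h : IsRk ρ) (m : ℕ) : IsRk (col m ρ) where
  emp := by simp [col, h.emp]
  mono A B hAB := by
    have h1 := h.mono _ _ (erase_subset_erase m hAB)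
    have h2 := @hAB m
    simp only [col]
    split_ifs <;> simp_all <;> omega
  ins A e := by
    by_cases he : e = m
    · rw [he, col_ins, col]; omega
    · have := h.ins (A.erase m) e
      rw [col_ne he, col]; omega
  dim A B e hAB := by
    by_cases he : e = m
    · have h2 := @hAB m
      rw [he, col_ins, col_ins, col, col]
      split_ifs <;> simp_all <;> omega
    · have := h.dim _ _ e (erase_subset_erase m hAB)
      rw [col_ne he, col_ne he, col, col]; omega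

lemma tut_ext {ρ : Finset ℕ → ℕ} (h : IsRk ρ) (m : ℕ) (y : ℚ) :
    tut (range (m + 1)) (trunc (ρ (range m)) (col m ρ)) 0 y = y * tut (range m) ρ 1 y := by
  rw [tut, range_add_one, sum_powerset_insert notMem_range_self, tut, mul_sum, ← sum_add_distrib]
  refine sum_congr rfl fun A hA => ?_
  have h0 : m ∉ A := fun h => notMem_range_self (mem_powerset.1 hA h)
  have h1 := h.mono A _ (mem_powerset.1 hA)
  have h2 := h.le_card A
  simp only [trunc, col_ins, erase_eq_of_notMem h0, erase_eq_of_notMem notMem_range_self,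
    card_insert_of_notMem h0]
  rw [col, erase_eq_of_notMem h0, if_neg h0, add_zero, min_eq_left h1,
    min_eq_right (Nat.le_succ _)]
  rcases h1.eq_or_lt with h3 | h3
  · rw [← h3, min_eq_right (Nat.le_succ _), Nat.sub_self, Nat.succ_sub h2, pow_succ]
    ring
  · rw [min_eq_left h3, Nat.succ_sub_succ, show ρ (range m) - ρ A = ρ (range m) - (ρ A + 1) + 1 by
      omega, pow_succ, pow_succ]
    ring

variable {α : Type} [Enc α] {m k : α → ℕ} {ρ : α → Finset ℕ → ℕ} {ok : α → Prop}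

lemma fam_col (h : Fam m ρ ok) : Fam (fun a => m a + 1) (fun a => col (m a) (ρ a)) ok := by
  obtain ⟨hm, O, hO, h⟩ := h.un
  have hm' : PT fun p : α × List ℕ => m p.1 := PT.comp hm.pt PT.fst'
  have h1 : PT fun p : α × List ℕ => p.2.filter fun e => !decide (e = m p.1) :=
    PT.filter (P := fun (p : α × List ℕ) (e : ℕ) => !decide (e = m p.1)) PT.snd'
      (PT.not (PT.eq PT.snd' (PT.comp hm.pt (PT.fst PT.fst'))))
  refine ⟨hm.add (UN.const 1), fun a L => O a (L.filter fun e => !decide (e = m a)) +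
    cond (decide (m a ∈ L)) 1 0, PT.add (hO.comp (PT.pair PT.fst' h1)).pt
      (PT.cond (PT.mem hm' PT.snd') (PT.const 1) (PT.const 0)),
    fun a ha => ⟨(col_rk (h a ha).1 _).to64, fun L hL => ?_⟩⟩
  beta_reduce
  rw [(h a ha).2 _ fun e he => by
    have h2 := List.mem_filter.1 he
    have h3 : e < m a + 1 := hL e h2.1
    have h4 : e ≠ m a := by simpa using h2.2
    omega, col]
  congr 1
  · congr 1; ext e; simp [and_comm]
  · by_cases h2 : m a ∈ L <;> simp [h2]

theorem ms_y1 (H : A80.St_ORC) {y : ℚ} (hy : 1 ≤ y) (h : Fam m ρ ok) (hk : UN k) :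
    MS k ok fun z => tut (range (m z)) (ρ z) 1 y := by
  obtain ⟨r, hr, hr'⟩ := h.rk
  obtain ⟨p, q, hq, e1⟩ := exists_frac (zero_le_one.trans hy)
  have e2 : (q : ℚ) ≠ 0 := by exact_mod_cast hq.ne'
  have e3 : (p : ℚ) ≠ 0 := fun h => by rw [e1, h, zero_div] at hy; linarith
  have h2 := ms_strips H (Or.inr ⟨le_rfl, one_pos, hy⟩) ((fam_col h).trunc hr.pt) hk
  obtain ⟨-, _, -, h5⟩ := h.un
  refine h2.smul (PT.const q) (PT.const p) (fun _ _ => Nat.pos_of_ne_zero (by exact_mod_cast e3))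
    fun z hz => ?_
  have h3 := tut_ext (h5 z hz).1 (m z) y
  rw [hr' z hz, A80.tut, ← tut, h3, e1]
  field_simp

theorem ms_q1 (H : A80.St_ORC) {x y : ℚ} (hx : 1 ≤ x) (hy : 1 ≤ y) (hq : (x - 1) * (y - 1) ≤ 1)
    (h : Fam m ρ ok) (hk : UN k) : MS k ok fun z => A80.tut (m z) (ρ z) x y := by
  obtain ⟨r, hr, hr'⟩ := h.rk
  have h2 := ms_y1 H hy ((h.comp (PT.fst' (β := ℕ))).trunc PT.snd') (hk.comp PT.fst')
  obtain ⟨p, q, hq', e1⟩ := exists_frac (sub_nonneg.2 hx)
  obtain ⟨s, t, ht, e2⟩ := exists_frac (sub_nonneg.2 hq)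
  have hr2 : UN fun w : α × ℕ => r w.1 - w.2 := (hr.comp PT.fst').sub PT.snd'
  have h3 := h2.smul (f' := fun w : α × ℕ => (x - 1) ^ (r w.1 - w.2) *
      (1 + if w.2 = 0 then 0 else (1 - y) * (x - 1)) * tut (range (m w.1)) (trunc w.2 (ρ w.1)) 1 y)
    (p := fun w => p ^ (r w.1 - w.2) * (if w.2 = 0 then t else s))
    (q := fun w => q ^ (r w.1 - w.2) * t)
    (PT.mul (ptPow _ hr2) (PT.iteEq PT.snd' (PT.const 0) (PT.const _) (PT.const _)))
    (PT.mul (ptPow _ hr2) (PT.const _)) (fun _ _ => by positivity) fun w _ => by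
      have e3 : (q : ℚ) ≠ 0 := by exact_mod_cast hq'.ne'
      have e4 : (t : ℚ) ≠ 0 := by exact_mod_cast ht.ne'
      have e5 : 1 + (1 - y) * (x - 1) = s / t := by rw [← e2]; ring
      congr 1
      split_ifs
      · rw [e1, div_pow]; push_cast; field_simp; ring
      · rw [e5, e1, div_pow]; push_cast; field_simp
  obtain ⟨-, _, -, h5⟩ := h.un
  refine h3.sum (hr.add (UN.const 1)) (fun z hz j _ => ⟨hz, ?_⟩) fun z hz => ?_
  · refine mul_nonneg (mul_nonneg (pow_nonneg (by linarith) _) ?_) (sum_nonneg fun A _ =>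
      mul_nonneg (pow_nonneg (by norm_num) _) (pow_nonneg (by linarith) _))
    split_ifs
    · simp
    · linarith
  · rw [A80.tut, ← tut, tut_comb (h5 z hz).1, ← hr' z hz]

theorem fpr_q1 (H : A80.St_ORC) {x y : ℚ} (hx : 1 ≤ x) (hy : 1 ≤ y) (hq : (x - 1) * (y - 1) ≤ 1)
    {r : ℕ → List (ℕ × ℕ) → ℕ} (hr : ∀ n A, (∀ e ∈ A, e.1 < n ∧ e.2 < n) → r n A = rk id A) :
    H79.FPR fun n E => (E.sublists.map fun A =>
      (x - 1) ^ (r n E - r n A) * (y - 1) ^ (A.length - r n A)).sum := by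
  refine H79.fpr_of_ms (ms_q1 (α := (ℕ × List (ℕ × ℕ)) × List Bool) H hx hy hq
    (H10.fam_graph (PT.snd PT.fst') fun _ => True) (UN.length PT.snd')) fun n E q hE =>
      ⟨trivial, ?_⟩
  exact (H10.tutte_eq E (r n) (fun A hA => hr n A fun e he => hE e (hA he)) x y).symm

end Pool.Agent.Lib.GJ.Q10
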