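import Pool.Agent.Lib.GJ.Step81
import Pool.Agent.Lib.GJ.Num79

/-! The samples are close to stationarity. -/

namespace Pool.Agent.Lib.GJ.H79

open Finset Pool.Agent.Lib.MP_b67cc8_lc Pool.Agent.FL.Mix28 Pool.Agent.Lib.FL

theorem smp_bd {r : Finset ℕ → ℕ} (h : H64.IsRk r) {q v c : ℝ} (hq : 1 ≤ q) (hv : 0 < v)
    {A0 A1 M N j m : ℕ} (a1 : (A1 : ℝ) * (1 + v) = v * M) (a0 : (A0 : ℝ) * (q + v) = v * M)
    (h0 : 0 < A0) (hj : j ≤ m) (hm : m + 1 ≤ N) (h16 : 16 ≤ N) (hM : 2 ^ M ≤ N) (hc : c ≤ N)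
    (hw : 1 + v ≤ N) (hP : PI m r q v (c * (m + 1) ^ 4)) {f : Finset ℕ → ℝ} (hf : Monotone f)
    (f0 : ∀ X, 0 ≤ f X) (f1 : ∀ X, f X ≤ 1) :
    |Ex ((N.size + M + 1) * N ^ 11)
      (fun x => f (rit (N.size + M + 1) (lz (H81.stp r j A0 A1 M N.size)) (N ^ 11) ∅ x)) -
      (∑ A ∈ (range j).powerset, wt r q v A * f A) / ∑ A ∈ (range j).powerset, wt r q v A| ≤
      1 / (N : ℝ) ^ 5 := by
  have N1 : (16 : ℝ) ≤ N := by exact_mod_cast h16
  have N0 : (0 : ℝ) < N := by linarith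
  obtain ⟨b1, b2⟩ := size_bd (N := N) (by omega)
  refine num2 h16 (j := j) (by omega) (by linarith) hw (H81.mixC h hq hv a1 a0 hj (by omega)
    Nat.lt_two_pow_self.le (by positivity)
    (((div_le_one (by positivity)).2 (one_le_pow₀ (by linarith))).trans (by norm_num)) ?_ hP hf
    (fun X _ => f0 X) (fun X _ => f1 X) _ le_rfl)
  have c1 : ((m : ℝ) + 1) ^ 4 ≤ N ^ 4 :=
    pow_le_pow_left₀ (by positivity) (by exact_mod_cast hm) _
  have c2 : c * ((m : ℝ) + 1) ^ 4 ≤ N * N ^ 4 :=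
    (mul_le_mul_of_nonneg_right hc (by positivity)).trans (mul_le_mul_of_nonneg_left c1 N0.le)
  have c3 : (2 : ℝ) ^ (N.size + M) ≤ 2 * N * N := by
    rw [pow_add]
    exact_mod_cast Nat.mul_le_mul b2 hM
  have c4 : (1 : ℝ) ≤ A0 := by exact_mod_cast h0
  calc 1 / (N : ℝ) ^ 7 * (c * ((m : ℝ) + 1) ^ 4) ≤ 1 / (N : ℝ) ^ 7 * (N * N ^ 4) :=
        mul_le_mul_of_nonneg_left c2 (by positivity)
    _ = 2 * 1 / (2 * N * N) := by field_simp
    _ ≤ 2 * A0 / 2 ^ (N.size + M) := div_le_div₀ (by positivity) (by linarith) (by positivity) c3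

theorem mono_ind {r : Finset ℕ → ℕ} (h : H64.IsRk r) (j : ℕ) :
    Monotone fun A => ((decide (r (insert j A) = r A)).toNat : ℝ) := fun A B hAB => by
  by_cases h1 : r (insert j A) = r A
  · simp [h1, h.ins_of_sub hAB h1]
  · simp [h1]

end Pool.Agent.Lib.GJ.H79
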