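import Pool.Agent.Lib.GJ.Step81

/-! The samples of the heat-bath walk estimate the probability that a new element is spanned. -/

namespace Pool.Agent.Lib.GJ.H81

open Finset Pool.Agent.Lib.helper82 Pool.Agent.Lib.MP_b67cc8_lc Pool.Agent.FL.Mix28
open Pool.Agent.Lib.FL.H64 (IsRk)

variable {r : Finset ℕ → ℕ} {q v : ℝ} {m A0 A1 M b B : ℕ}

theorem span_mono (h : IsRk r) (e : ℕ) {X Y : Finset ℕ} (hXY : X ⊆ Y)
    (h1 : r (insert e X) = r X) : r (insert e Y) = r Y := by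
  have h2 := h.sub (insert e X) Y
  have h3 := h.mono Y _ (subset_insert e Y)
  have h4 := h.mono X (insert e X ∩ Y) (subset_inter (subset_insert _ _) hXY)
  rw [insert_union, union_eq_right.2 hXY] at h2
  omega

theorem ind_mono (h : IsRk r) (e : ℕ) :
    Monotone fun X : Finset ℕ => if r (insert e X) = r X then (1 : ℝ) else 0 := by
  intro X Y hXY
  beta_reduce
  by_cases h1 : r (insert e X) = r X
  · rw [if_pos h1, if_pos (span_mono h e hXY h1)]
  · rw [if_neg h1]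
    split_ifs <;> norm_num

/-- after `N * (W * m + 2 * D)` steps the error is `2 ^ (-D)` -/
theorem mixD (h : IsRk r) (hq : 1 ≤ q) (hv : 0 < v) (a1 : (A1 : ℝ) * (1 + v) = v * M)
    (a0 : (A0 : ℝ) * (q + v) = v * M) {j : ℕ} (hj : j ≤ m) (hm : j ≤ 2 ^ b) (hM : M ≤ 2 ^ B)
    {C : ℝ} {N W : ℕ} (N0 : 0 < N) (hN : 2 * 2 ^ (b + B) * C ≤ A0 * N) (hW : 1 + v ≤ 2 ^ W)
    (hP : PI m r q v C) {f : Finset ℕ → ℝ} (hf : Monotone f) (f0 : ∀ X ⊆ range j, 0 ≤ f X)
    (f1 : ∀ X ⊆ range j, f X ≤ 1) (D : ℕ) {n : ℕ}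
    (hn : (b + B + 1) * (N * (W * m + 2 * D)) ≤ n) :
    |Ex n (fun x => f (rit (b + B + 1) (lz (stp r j A0 A1 M b)) (N * (W * m + 2 * D)) ∅ x)) -
      (∑ A ∈ (range j).powerset, wt r q v A * f A) / ∑ A ∈ (range j).powerset, wt r q v A| ≤
      (1 / 2) ^ D := by
  have N1 : (1 : ℝ) ≤ N := by exact_mod_cast N0
  have γ4 : (4 : ℝ) / N ≤ 4 := div_le_self (by norm_num) N1
  have k1 := mixC h hq hv a1 a0 hj hm hM (γ := 4 / N) (by positivity) γ4 (by
    rw [div_mul_eq_mul_div, div_le_div_iff₀ (by positivity) (by positivity)]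
    nlinarith) hP hf f0 f1 _ hn
  have k2 := pow_le_half γ4 (N := N) (le_of_eq (by field_simp)) (W * m + 2 * D)
  have k3 : (1 + v) ^ j ≤ 2 ^ (W * m) := by
    rw [pow_mul]
    exact (pow_le_pow_right₀ (by linarith) hj).trans (pow_le_pow_left₀ (by linarith) hW m)
  refine abs_le_of_sq_le_sq (k1.trans ((mul_le_mul k2 k3 (by positivity)
    (by positivity)).trans (le_of_eq ?_))) (by positivity)
  rw [pow_add, mul_right_comm, ← mul_pow, ← pow_mul, mul_comm D 2]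
  norm_num

theorem exists_den (a : ℚ) (ha : 0 < a) : ∃ n d : ℕ, 0 < n ∧ 0 < d ∧ (a : ℝ) * d = n := by
  refine ⟨a.num.toNat, a.den, by have := Rat.num_pos.2 ha; omega, a.den_pos, ?_⟩
  have h1 : ((a.num.toNat : ℤ) : ℝ) = a.num := by rw [Int.toNat_of_nonneg (Rat.num_pos.2 ha).le]
  rw [Int.cast_natCast] at h1
  rw [h1]
  exact_mod_cast Rat.mul_den_eq_num a

theorem exists_coins (q v : ℚ) (hq : 0 < q) (hv : 0 < v) : ∃ A0 A1 M B W : ℕ, 0 < A0 ∧
    (A1 : ℝ) * (1 + v) = v * M ∧ (A0 : ℝ) * (q + v) = v * M ∧ M ≤ 2 ^ B ∧ (1 : ℝ) + v ≤ 2 ^ W := by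
  obtain ⟨a, d, a0, d0, e1⟩ := exists_den v hv
  obtain ⟨c, g, c0, g0, e2⟩ := exists_den q hq
  obtain ⟨W, hW⟩ := pow_unbounded_of_one_lt ((1 : ℝ) + v) one_lt_two
  refine ⟨a * g * (d + a), a * (c * d + a * g), (d + a) * (c * d + a * g), _, W, by positivity,
    ?_, ?_, Nat.lt_two_pow_self.le, hW.le⟩
  · push_cast
    rw [← e1]
    ring
  · push_cast
    rw [← e1, ← e2]
    ring

theorem two_pow_size (m : ℕ) : 2 ^ m.size ≤ 2 * (m + 1) := by
  rcases Nat.eq_zero_or_pos m.size with h | h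
  · rw [h]; omega
  · have := Nat.lt_size.1 (show m.size - 1 < m.size by omega)
    rw [show m.size = m.size - 1 + 1 by omega, pow_succ]
    omega

/-- the choice of the parameters -/
theorem smp_param (q v : ℚ) (hq : 1 ≤ q) (hv : 0 < v) (c : ℝ) : ∃ A0 A1 M B c1 W : ℕ,
    ∀ (m : ℕ) (r : Finset ℕ → ℕ), IsRk r → PI m r q v (c * (m + 1) ^ 4) → ∀ D j e : ℕ, j ≤ m →
      ∀ T : ℕ, T = c1 * (m + 1) ^ 5 * (W * m + 2 * D) → ∀ n, (m.size + B + 1) * T ≤ n →
      |Ex n (fun x => ((decide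
          (r (insert e (rit (m.size + B + 1) (lz (stp r j A0 A1 M m.size)) T ∅ x)) =
            r (rit (m.size + B + 1) (lz (stp r j A0 A1 M m.size)) T ∅ x))).toNat : ℝ)) -
        (∑ A ∈ (range j).powerset, wt r q v A * if r (insert e A) = r A then 1 else 0) /
          ∑ A ∈ (range j).powerset, wt r q v A| ≤ (1 / 2) ^ D := by
  obtain ⟨A0, A1, M, B, W, A00, a1, a0, hM, hW⟩ := exists_coins q v (by linarith) hv
  obtain ⟨c1, hc1⟩ := exists_nat_gt (4 * 2 ^ B * |c|)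
  have c0 : 0 < c1 := by
    have : (0 : ℝ) < c1 := lt_of_le_of_lt (by positivity) hc1
    exact_mod_cast this
  refine ⟨A0, A1, M, B, c1, W, fun m r h hP D j e hj T hT n hn => ?_⟩
  subst hT
  have k := mixD h (by exact_mod_cast hq) (by exact_mod_cast hv) a1 a0 hj
    (hj.trans (Nat.lt_size_self m).le) hM (N := c1 * (m + 1) ^ 5) (by positivity) (by
      have b1 : ((2 ^ m.size : ℕ) : ℝ) ≤ (2 * (m + 1) : ℕ) := by exact_mod_cast two_pow_size m
      have b2 : (1 : ℝ) ≤ A0 := by exact_mod_cast A00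
      push_cast at b1 ⊢
      calc 2 * 2 ^ (m.size + B) * (c * ((m : ℝ) + 1) ^ 4)
          ≤ 2 * 2 ^ (m.size + B) * (|c| * ((m : ℝ) + 1) ^ 4) := by
            gcongr
            exact le_abs_self c
        _ ≤ 2 * (2 * (m + 1) * 2 ^ B) * (|c| * ((m : ℝ) + 1) ^ 4) := by
            rw [pow_add]
            gcongr
        _ = 1 * (4 * 2 ^ B * |c| * ((m : ℝ) + 1) ^ 5) := by ring
        _ ≤ _ := by gcongr) hW hP (ind_mono h e)
    (fun _ _ => by split_ifs <;> norm_num) (fun _ _ => by split_ifs <;> norm_num) D hn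
  refine le_of_eq_of_le ?_ k
  congr 2
  refine Ex_congr fun x _ => ?_
  split_ifs with h1 <;> simp [h1]

end Pool.Agent.Lib.GJ.H81
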