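import Pool.Agent.Lib.GJ.Inst83
import Pool.Agent.Lib.GJ.A10
import Pool.Agent.Lib.GJ.B55

/-! The Poincare inequality for graphs and the approximation scheme for `1 ≤ q ≤ 2`. -/

namespace Pool.Agent.Lib.GJ

open Finset Pool.Agent.Lib.helper82 Pool.Agent.Lib.MP_b67cc8_lc Pool.Agent.Lib.FL
open Pool.Agent.Lib.MP_dec383_lc (UN)

theorem hyp_graph {q v : ℝ} (h1 : 1 ≤ q) (h2 : q ≤ 2) (hv : 0 < v) (E : EL) :
    H55.Hyp v (q - 1) (v * (2 * E.length + 1)) (fun Y => q⁻¹ ^ H10.gr E Y)
      fun e Y => H10.ind (gc E Y (E.getD e (0, 0)).1 (E.getD e (0, 0)).2) := by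
  have q0 : 0 < q := by linarith
  have h := cn_graph E
  refine ⟨hv.le, by linarith, by linarith, by positivity, fun Y => by positivity,
    fun e Y => H10.ind_nonneg _, fun e Y => ?_, fun F B e f hf => ?_, fun F B e f hf => ?_⟩
  · by_cases hc : gc E Y (E.getD e (0, 0)).1 (E.getD e (0, 0)).2
    · rw [h.rk1 _ _ hc, H10.ind_pos hc, mul_one, div_self (by linarith), mul_one]
    · rw [h.rk0 _ _ hc, H10.ind_neg hc, pow_succ, mul_zero, add_zero, add_sub_cancel, one_div]
  · have a := H10.fkg h h1 hv.le F B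
      (fun Y => H10.ind (gc E Y (E.getD e (0, 0)).1 (E.getD e (0, 0)).2))
      (fun Y => f Y - H10.φ q v (H10.gr E) F B f) (fun _ _ hY => H10.ind_mono (h.mono hY))
      fun _ _ hY => sub_le_sub_right (hf hY) _
    rw [H10.S_center q0 hv.le, mul_zero] at a
    exact nonneg_of_mul_nonneg_right a (H10.Z_pos q0 hv.le _ _)
  · set Vs : Finset ℕ := insert 0 ((range E.length).image (fun i => (E.getD i (0, 0)).1) ∪
      (range E.length).image fun i => (E.getD i (0, 0)).2) with hVs
    have hV : ∀ i, (E.getD i (0, 0)).1 ∈ Vs ∧ (E.getD i (0, 0)).2 ∈ Vs := fun i => by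
      by_cases hl : i < E.length
      · exact ⟨mem_insert_of_mem (mem_union_left _ (mem_image_of_mem _ (mem_range.2 hl))),
          mem_insert_of_mem (mem_union_right _ (mem_image_of_mem _ (mem_range.2 hl)))⟩
      · rw [List.getD_eq_default _ _ (not_lt.1 hl)]
        exact ⟨mem_insert_self _ _, mem_insert_self _ _⟩
    have hc : Vs.card ≤ 2 * E.length + 1 := by
      have := (card_insert_le 0 _).trans (Nat.succ_le_succ ((card_union_le
        ((range E.length).image fun i => (E.getD i (0, 0)).1)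
        ((range E.length).image fun i => (E.getD i (0, 0)).2)).trans
          (Nat.add_le_add card_image_le card_image_le)))
      rw [card_range] at this
      exact this.trans (by omega)
    have hN : ∀ z Y, (H10.N (gc E) Vs z Y : ℝ) ≤ 2 * E.length + 1 := fun z Y =>
      (sum_le_card_nsmul _ _ 1 fun _ _ => H10.ind_le_one _).trans (by
        rw [nsmul_one]; exact_mod_cast hc)
    refine (H10.russo h h1 h2 hv.le (fun i _ => hV i) B hf _ _).trans ?_
    rw [H10.cost, mul_sum]
    refine sum_le_sum fun g _ => ?_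
    rw [mul_assoc]
    refine mul_le_mul_of_nonneg_left ?_ hv.le
    exact (H10.S_le q0 hv.le (g' := fun Y => (2 * E.length + 1) * (f (insert g Y) - f Y))
      fun X _ => mul_le_mul_of_nonneg_right (hN _ _)
        (sub_nonneg.2 (hf (subset_insert _ _)))).trans (H10.S_mul _ _ _ _).le

theorem pi_graph {q v : ℝ} (h1 : 1 ≤ q) (h2 : q ≤ 2) (hv : 0 < v) (E : EL) :
    PI E.length (H10.gr E) q v ((2 + 8 * v ^ 2) * (E.length + 1) ^ 4) := by
  intro j hj f hf h0
  have q0 : 0 < q := by linarith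
  have e : ∀ (F : Finset ℕ) (g : Finset ℕ → ℝ), H55.S v (fun Y => q⁻¹ ^ H10.gr E Y) F ∅ g =
      ∑ A ∈ F.powerset, wt (H10.gr E) q v A * g A := fun F g =>
    sum_congr rfl fun A _ => by simp only [empty_union, wt, inv_pow, div_eq_mul_inv]
  have h := H55.poincare (hyp_graph h1 h2 hv E) hf (range j) ∅
  rw [H55.Vr, H55.Dr, e, e, h0, card_range] at h
  simp only [e, H55.D] at h
  have w0 : ∀ (A : Finset ℕ) (x : ℝ), 0 ≤ wt (H10.gr E) q v A * x ^ 2 := fun A x => by
    unfold wt; positivity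
  refine le_trans (by simp) (h.trans (mul_le_mul ?_ (sum_le_sum fun i _ =>
    sum_le_sum_of_subset_of_nonneg (powerset_mono.2 (erase_subset _ _)) fun _ _ _ => w0 _ _)
    (sum_nonneg fun _ _ => sum_nonneg fun _ _ => w0 _ _) (by positivity)))
  have a : (j : ℝ) ≤ E.length := by exact_mod_cast hj
  have b : (0 : ℝ) ≤ j := Nat.cast_nonneg j
  generalize (E.length : ℝ) = m at *
  have c1 : (j : ℝ) ≤ (m + 1) ^ 4 := by nlinarith [pow_nonneg (b.trans a) 2, pow_nonneg (b.trans a) 3, pow_nonneg (b.trans a) 4]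
  have c2 : (j : ℝ) * (2 * m + 1) ≤ 2 * (m + 1) ^ 2 := by nlinarith
  have c3 := pow_le_pow_left₀ (by nlinarith) c2 2
  nlinarith [mul_le_mul_of_nonneg_left c3 (sq_nonneg v)]

theorem fpr_two (hA : St_ALG) {x y : ℚ} (hx : 1 < x) (hy : 1 < y)
    (h1 : 1 ≤ (x - 1) * (y - 1)) (h2 : (x - 1) * (y - 1) ≤ 2) {r : ℕ → List (ℕ × ℕ) → ℕ}
    (hr : ∀ n A, (∀ e ∈ A, e.1 < n ∧ e.2 < n) → r n A = rk id A) :
    H79.FPR fun n E => (E.sublists.map fun A =>
      (x - 1) ^ (r n E - r n A) * (y - 1) ^ (A.length - r n A)).sum := by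
  refine H79.fpr_of_ms (hA x y hx hy h1 _ ((ℕ × List (ℕ × ℕ)) × List Bool) _ _ _ _
    (H10.fam_graph (PT.snd PT.fst') fun _ => True) (UN.length PT.snd') fun a _ =>
      pi_graph (by exact_mod_cast h1) (by exact_mod_cast h2)
        (by have : (1 : ℝ) < y := by exact_mod_cast hy
            linarith) a.1.2) fun n E q hE => ⟨trivial, ?_⟩
  exact (H10.tutte_eq E (r n) (fun A hA => hr n A fun e he => hE e (hA he)) x y).symm

end Pool.Agent.Lib.GJ
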